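import Pool.Agent.Lib.H17S.X.X0

set_option autoImplicit false

/-!
H17S, module A (the function `alst`): definitions. `MT` is the bounded part of the frame, `c0` and `qQ = X Q` are the coefficients of
`alst = - β - i N + c0 + ∑ qQ_kj V_k V_j / |V|²` (tangent `V`, `X = |V|²`).
-/

open MeasureTheory Filter Topology Set
open scoped ContDiff ComplexConjugate

namespace H17S

open NullPen (E3 S2 sm proj)

/-- Bounded part of the frame at time `t`. -/
def MT (B : ℝ → Fin 3 → Fin 3 → ℝ) (n : E3) (t : ℝ) (i j : Fin 3) : ℝ := B t i j - t * proj n i j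

/-- Coefficients of the quadratic form in `qC`. -/
noncomputable def mQ (n : E3) (M : Fin 3 → Fin 3 → ℝ) (k j : Fin 3) : ℂ :=
  (M k j : ℂ) - ((∑ i, jm n i k * M i j : ℝ) : ℂ) * Complex.I

/-- The constant term. -/
noncomputable def c0 (P N X : ℝ) (B : ℝ → Fin 3 → Fin 3 → ℝ) (n : E3) : ℂ :=
  - (4 / (num P N X : ℂ)) * ∫ t in Ioi (0 : ℝ),
    (conj ((mo P N X).ac t) * aC n (MT B n t) + (mo P N X).aa t * conj (aC n (MT B n t)))

/-- `X` times the coefficients of the quadratic term. -/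
noncomputable def qQ (P N X : ℝ) (B : ℝ → Fin 3 → Fin 3 → ℝ) (n : E3) (k j : Fin 3) : ℂ :=
  4 / (num P N X : ℂ) * ∫ t in Ioi (0 : ℝ), (mo P N X).aa t * mQ n (MT B n t) k j

/-- Frames at one point of the sphere: continuous, with bounded `MT`. -/
structure FB (B : ℝ → Fin 3 → Fin 3 → ℝ) (n : E3) (C : ℝ) : Prop where
  nn : 0 ≤ C
  cont : ∀ i j, ContinuousOn (fun t => B t i j) (Ici 0)
  bd : ∀ t, 0 ≤ t → ∀ i j, |MT B n t i j| ≤ C

theorem Fam.fb {B : ℝ → ℝ → S2 → Fin 3 → Fin 3 → ℝ} {C : ℝ} (hB : Fam B C) {τ : ℝ} (hτ : τ ∈ Icc (0 : ℝ) 1) (n : S2) :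
    FB (fun s => B τ s n) n C where
  nn := hB.C_nonneg
  cont := fun i j => by
    have h := hB.cont i j
    have h2 : ContinuousOn (fun t : ℝ => ((τ, t, n) : ℝ × ℝ × S2)) (Ici 0) := by fun_prop
    exact h.comp h2 fun t ht => ⟨hτ, ht, mem_univ _⟩
  bd := fun t ht i j => hB.bd τ hτ t ht n i j

/-- The domain of `alst`. -/
def DA : Set ((ℝ × ℝ × ℝ) × S2 × (Fin 3 → ℝ)) := {p | p.1.1 ∈ Icc (0 : ℝ) 1 ∧ 0 < p.1.2.1 ∧ nsq p.2.2 < Xc p.1.2.1 p.1.2.2}

theorem aa_nsq_nonneg (V : Fin 3 → ℝ) : 0 ≤ nsq V := by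
  unfold nsq
  positivity

theorem aa_nsq_cont : Continuous nsq := by
  unfold nsq
  fun_prop

end H17S
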