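import Pool.Agent.Lib.H17S.A.A0

set_option autoImplicit false

/-!
Chunk AA1 (M, many small). Algebra of `jm`, `aC`, `qC` at a point of the sphere.

All are finite sums over `Fin 3`: unfold (`cr`, `crs`, `jm`, `proj`, `nsq`, `Fin.sum_univ_three`), for complex identities `Complex.ext` or `push_cast; ring`. On the sphere `∑ (n i)^2 = 1`
(`EuclideanSpace.norm_eq`, `Fin.sum_univ_three`; see H17U or NullShell for a ready lemma, e.g. search `sum_sq`). `crs v w i = v (i+1) * w (i+2) - v (i+2) * w (i+1)`, so `jm n 0 1 = - n 2`, `jm n 0 2 = n 1`, ... :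
every `jm n i j` is `0` or `± n k`; hence `jm_bd` (`|n k| ≤ ‖n‖ = 1`) and `jm_lip` (`|n k - m k| ≤ ‖n - m‖`). `jm` is antisymmetric, `proj` symmetric.
`aC_frame`: `∑ proj n i i = 2`, `∑ jm n i j * proj n i j = 0`. `qC_frame`: `∑ V_i proj_ij V_j = |V|² - (n.V)²`, `∑ (n×V)_i proj_ij V_j = 0`, and `∑_ij (n×V)_i M_ij V_j = ∑_kj V_k (∑_i jm n i k M_ij) V_j`
(an identity `A = B` with `n 0 ^2 + n 1 ^2 + n 2 ^2 = 1` used linearly: `linear_combination`).
`aC_bd`: `‖z‖ ≤ |re| + |im|`, `(3 C + 9 C)/2 = 6 C`. `aC_lip`: `|jm n M - jm m M'| ≤ |jm n| |M - M'| + |jm n - jm m| |M'| ≤ 2 C ‖n - m‖`, `(3 + 18)/2 ≤ 12`. `mQ_bd`: `C + 3 C`. `mQ_lip`: `C + 3 * 2 C ≤ 8 C`.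
-/

open MeasureTheory Filter Topology Set
open scoped ContDiff ComplexConjugate

namespace H17S

open NullPen (E3 S2 sm proj)

private theorem aa1_jm (n : E3) : jm n 0 0 = 0 ∧ jm n 0 1 = - n 2 ∧ jm n 0 2 = n 1 ∧ jm n 1 0 = n 2 ∧ jm n 1 1 = 0 ∧
    jm n 1 2 = - n 0 ∧ jm n 2 0 = - n 1 ∧ jm n 2 1 = n 0 ∧ jm n 2 2 = 0 := by
  unfold jm cr NullU.crs
  simp [show (0 : Fin 3) + 1 = 1 from rfl, show (0 : Fin 3) + 2 = 2 from rfl,
    show (1 : Fin 3) + 1 = 2 from rfl, show (1 : Fin 3) + 2 = 0 from rfl,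
    show (2 : Fin 3) + 1 = 0 from rfl, show (2 : Fin 3) + 2 = 1 from rfl]

private theorem aa1_c (x : E3) (k : Fin 3) : |x k| ≤ ‖x‖ := by
  have := PiLp.norm_apply_le x k
  rwa [Real.norm_eq_abs] at this

private theorem aa1_one (n : S2) : ‖(n : E3)‖ = 1 := by
  have h := n.2
  simpa using h

private theorem aa1_sq (n : S2) : (n : E3) 0 ^ 2 + (n : E3) 1 ^ 2 + (n : E3) 2 ^ 2 = 1 := by
  have h := aa1_one n
  have h2 := EuclideanSpace.norm_sq_eq (n : E3)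
  rw [h, Fin.sum_univ_three] at h2
  simp only [Real.norm_eq_abs, sq_abs] at h2
  linarith

private theorem aa1_I (a b : ℝ) : ‖(a : ℂ) + (b : ℂ) * Complex.I‖ ≤ |a| + |b| := by
  refine (norm_add_le _ _).trans ?_
  rw [norm_mul, Complex.norm_real, Complex.norm_real, Complex.norm_I, mul_one, Real.norm_eq_abs, Real.norm_eq_abs]

private theorem aa1_I' (a b : ℝ) : ‖(a : ℂ) - (b : ℂ) * Complex.I‖ ≤ |a| + |b| := by
  refine (norm_sub_le _ _).trans ?_
  rw [norm_mul, Complex.norm_real, Complex.norm_real, Complex.norm_I, mul_one, Real.norm_eq_abs, Real.norm_eq_abs]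

private theorem aa1_sum {f : Fin 3 → ℝ} {K : ℝ} (h : ∀ i, |f i| ≤ K) : |∑ i, f i| ≤ 3 * K := by
  refine (Finset.abs_sum_le_sum_abs _ _).trans ((Finset.sum_le_sum fun i _ => h i).trans (le_of_eq ?_))
  simp

private theorem aa1_sum2 {f : Fin 3 → Fin 3 → ℝ} {K : ℝ} (h : ∀ i j, |f i j| ≤ K) : |∑ i, ∑ j, f i j| ≤ 9 * K := by
  have := aa1_sum (f := fun i => ∑ j, f i j) (K := 3 * K) fun i => aa1_sum (h i)
  linarith

theorem cr_jm (n : E3) (V : Fin 3 → ℝ) (i : Fin 3) : cr n V i = ∑ k, jm n i k * V k := by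
  obtain ⟨h1, h2, h3, h4, h5, h6, h7, h8, h9⟩ := aa1_jm n
  fin_cases i
  · simp only [Fin.zero_eta, Fin.sum_univ_three, h1, h2, h3]
    unfold cr NullU.crs
    simp only [show (0 : Fin 3) + 1 = 1 from rfl, show (0 : Fin 3) + 2 = 2 from rfl]
    ring
  · simp only [Fin.mk_one, Fin.sum_univ_three, h4, h5, h6]
    unfold cr NullU.crs
    simp only [show (1 : Fin 3) + 1 = 2 from rfl, show (1 : Fin 3) + 2 = 0 from rfl]
    ring
  · simp only [Fin.reduceFinMk, Fin.sum_univ_three, h7, h8, h9]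
    unfold cr NullU.crs
    simp only [show (2 : Fin 3) + 1 = 0 from rfl, show (2 : Fin 3) + 2 = 1 from rfl]
    ring

theorem jm_bd (n : S2) (i j : Fin 3) : |jm n i j| ≤ 1 := by
  obtain ⟨h1, h2, h3, h4, h5, h6, h7, h8, h9⟩ := aa1_jm n
  have hk : ∀ k, |(n : E3) k| ≤ 1 := fun k => (aa1_c _ k).trans (aa1_one n).le
  fin_cases i <;> fin_cases j <;>
    simp only [Fin.zero_eta, Fin.mk_one, Fin.reduceFinMk, h1, h2, h3, h4, h5, h6, h7, h8, h9, abs_neg, abs_zero] <;>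
    first | exact hk _ | norm_num

theorem jm_lip (n m : E3) (i j : Fin 3) : |jm n i j - jm m i j| ≤ ‖n - m‖ := by
  obtain ⟨h1, h2, h3, h4, h5, h6, h7, h8, h9⟩ := aa1_jm n
  obtain ⟨g1, g2, g3, g4, g5, g6, g7, g8, g9⟩ := aa1_jm m
  have hk : ∀ k, |n k - m k| ≤ ‖n - m‖ := fun k => aa1_c (n - m) k
  have hk' : ∀ k, |-n k - -m k| ≤ ‖n - m‖ := fun k => by
    rw [show -n k - -m k = -(n k - m k) by ring, abs_neg]
    exact hk k
  have h0 : |(0 : ℝ) - 0| ≤ ‖n - m‖ := by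
    rw [sub_zero, abs_zero]
    exact norm_nonneg _
  fin_cases i <;> fin_cases j <;>
    simp only [Fin.zero_eta, Fin.mk_one, Fin.reduceFinMk, h1, h2, h3, h4, h5, h6, h7, h8, h9, g1, g2, g3, g4, g5, g6, g7, g8, g9] <;>
    first | exact hk _ | exact hk' _ | exact h0

private theorem aa1_cc (i : Fin 3) : Continuous (fun n : E3 => n i) :=
  (EuclideanSpace.proj i : E3 →L[ℝ] ℝ).continuous

theorem aa_jm_cont (i j : Fin 3) : Continuous (fun n : E3 => jm n i j) :=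
  ((aa1_cc (i + 1)).mul continuous_const).sub ((aa1_cc (i + 2)).mul continuous_const)

theorem aa_proj_cont (i j : Fin 3) : Continuous (fun n : E3 => proj n i j) :=
  continuous_const.sub ((aa1_cc i).mul (aa1_cc j))

private theorem aa1_pr (n : S2) : ∑ i, proj n i i = 2 := by
  have h := aa1_sq n
  unfold proj
  simp only [Fin.sum_univ_three, if_true]
  linear_combination -h

private theorem aa1_jp (n : E3) : ∑ i, ∑ j, jm n i j * proj n i j = 0 := by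
  obtain ⟨h1, h2, h3, h4, h5, h6, h7, h8, h9⟩ := aa1_jm n
  simp only [Fin.sum_univ_three, h1, h2, h3, h4, h5, h6, h7, h8, h9]
  unfold proj
  simp
  ring

theorem aC_frame (n : S2) (M : Fin 3 → Fin 3 → ℝ) (t : ℝ) :
    aC n M - (t : ℂ) = aC n (fun i j => M i j - t * proj n i j) := by
  have h1 : ∑ i, (M i i - t * proj n i i) = (∑ i, M i i) - 2 * t := by
    rw [Finset.sum_sub_distrib, ← Finset.mul_sum, aa1_pr]
    ring
  have h2 : ∑ i, ∑ j, jm n i j * (M i j - t * proj n i j) = ∑ i, ∑ j, jm n i j * M i j := by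
    have h3 : ∑ i, ∑ j, jm n i j * (M i j - t * proj n i j) = (∑ i, ∑ j, jm n i j * M i j) -
        t * ∑ i, ∑ j, jm n i j * proj n i j := by
      simp only [Fin.sum_univ_three]
      ring
    rw [h3, aa1_jp, mul_zero, sub_zero]
  unfold aC
  rw [h1, h2]
  push_cast
  ring

theorem qC_frame (n : S2) (M : Fin 3 → Fin 3 → ℝ) (t : ℝ) (V : Fin 3 → ℝ) :
    qC n M V = ∑ k, ∑ j, mQ n (fun i j => M i j - t * proj n i j) k j * ((V k * V j : ℝ) : ℂ) -
      (nsq V : ℂ) * conj (aC n (fun i j => M i j - t * proj n i j)) - ((t * (∑ i, (n : E3) i * V i) ^ 2 : ℝ) : ℂ) := by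
  rw [← aC_frame, map_sub, Complex.conj_ofReal]
  have e1 : ∀ M' : Fin 3 → Fin 3 → ℝ, ∑ k, ∑ j, mQ n M' k j * ((V k * V j : ℝ) : ℂ) =
      ((∑ k, ∑ j, V k * M' k j * V j : ℝ) : ℂ) - ((∑ k, ∑ j, cr n V k * M' k j * V j : ℝ) : ℂ) * Complex.I := by
    intro M'
    unfold mQ
    simp only [cr_jm]
    simp only [Fin.sum_univ_three]
    push_cast
    ring
  have e2 : ∑ k, ∑ j, V k * (M k j - t * proj n k j) * V j = (∑ k, ∑ j, V k * M k j * V j) -
      t * (nsq V - (∑ i, (n : E3) i * V i) ^ 2) := by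
    unfold nsq proj
    simp only [Fin.sum_univ_three]
    simp
    ring
  have e3 : ∑ k, ∑ j, cr n V k * (M k j - t * proj n k j) * V j = ∑ k, ∑ j, cr n V k * M k j * V j := by
    have h : ∑ k, ∑ j, cr n V k * proj n k j * V j = 0 := by
      obtain ⟨h1, h2, h3, h4, h5, h6, h7, h8, h9⟩ := aa1_jm n
      simp only [cr_jm]
      simp only [Fin.sum_univ_three, h1, h2, h3, h4, h5, h6, h7, h8, h9]
      unfold proj
      simp
      ring
    have h' : ∑ k, ∑ j, cr n V k * (M k j - t * proj n k j) * V j = (∑ k, ∑ j, cr n V k * M k j * V j) -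
        t * ∑ k, ∑ j, cr n V k * proj n k j * V j := by
      simp only [Fin.sum_univ_three]
      ring
    rw [h', h, mul_zero, sub_zero]
  rw [e1, e2, e3]
  unfold qC
  push_cast
  ring

theorem aC_bd (n : S2) {M : Fin 3 → Fin 3 → ℝ} {C : ℝ} (hM : ∀ i j, |M i j| ≤ C) : ‖aC n M‖ ≤ 6 * C := by
  unfold aC
  rw [norm_div, Complex.norm_ofNat]
  have h1 := aa1_I (∑ i, M i i) (∑ i, ∑ j, jm n i j * M i j)
  have h2 : |∑ i, M i i| ≤ 3 * C := aa1_sum fun i => hM i i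
  have h3 : |∑ i, ∑ j, jm n i j * M i j| ≤ 9 * C := aa1_sum2 fun i j => by
    rw [abs_mul]
    calc |jm n i j| * |M i j| ≤ 1 * C := mul_le_mul (jm_bd n i j) (hM i j) (abs_nonneg _) zero_le_one
      _ = C := one_mul C
  rw [div_le_iff₀ (by norm_num)]
  linarith

theorem mQ_bd (n : S2) {M : Fin 3 → Fin 3 → ℝ} {C : ℝ} (hM : ∀ i j, |M i j| ≤ C) (k j : Fin 3) : ‖mQ n M k j‖ ≤ 4 * C := by
  unfold mQ
  have h1 := aa1_I' (M k j) (∑ i, jm n i k * M i j)
  have h3 : |∑ i, jm n i k * M i j| ≤ 3 * C := aa1_sum fun i => by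
    rw [abs_mul]
    calc |jm n i k| * |M i j| ≤ 1 * C := mul_le_mul (jm_bd n i k) (hM i j) (abs_nonneg _) zero_le_one
      _ = C := one_mul C
  have := hM k j
  linarith

private theorem aa1_pl (n m : S2) {M M' : Fin 3 → Fin 3 → ℝ} {C : ℝ} (hM : ∀ i j, |M' i j| ≤ C)
    (h : ∀ i j, |M i j - M' i j| ≤ C * ‖(n : E3) - m‖) (i k j : Fin 3) :
    |jm n i k * M i j - jm m i k * M' i j| ≤ 2 * C * ‖(n : E3) - m‖ := by
  have e : jm n i k * M i j - jm m i k * M' i j = jm n i k * (M i j - M' i j) + (jm n i k - jm m i k) * M' i j := by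
    ring
  have h1 : |jm n i k * (M i j - M' i j)| ≤ 1 * (C * ‖(n : E3) - m‖) := by
    rw [abs_mul]
    exact mul_le_mul (jm_bd n i k) (h i j) (abs_nonneg _) zero_le_one
  have h2 : |(jm n i k - jm m i k) * M' i j| ≤ ‖(n : E3) - m‖ * C := by
    rw [abs_mul]
    exact mul_le_mul (jm_lip _ _ i k) (hM i j) (abs_nonneg _) (norm_nonneg _)
  rw [e]
  refine (abs_add_le _ _).trans ?_
  linarith

theorem aC_lip (n m : S2) {M M' : Fin 3 → Fin 3 → ℝ} {C : ℝ} (hM : ∀ i j, |M' i j| ≤ C)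
    (h : ∀ i j, |M i j - M' i j| ≤ C * ‖(n : E3) - m‖) : ‖aC n M - aC m M'‖ ≤ 12 * C * ‖(n : E3) - m‖ := by
  have hC : 0 ≤ C := (abs_nonneg _).trans (hM 0 0)
  have e : aC n M - aC m M' = (((∑ i, (M i i - M' i i) : ℝ) : ℂ) +
      ((∑ i, ∑ j, (jm n i j * M i j - jm m i j * M' i j) : ℝ) : ℂ) * Complex.I) / 2 := by
    unfold aC
    simp only [Finset.sum_sub_distrib]
    push_cast
    ring
  rw [e, norm_div, Complex.norm_ofNat]
  have h1 := aa1_I (∑ i, (M i i - M' i i)) (∑ i, ∑ j, (jm n i j * M i j - jm m i j * M' i j))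
  have h2 : |∑ i, (M i i - M' i i)| ≤ 3 * (C * ‖(n : E3) - m‖) := aa1_sum fun i => h i i
  have h3 : |∑ i, ∑ j, (jm n i j * M i j - jm m i j * M' i j)| ≤ 9 * (2 * C * ‖(n : E3) - m‖) :=
    aa1_sum2 fun i j => aa1_pl n m hM h i j j
  have h4 : 0 ≤ C * ‖(n : E3) - m‖ := mul_nonneg hC (norm_nonneg _)
  rw [div_le_iff₀ (by norm_num)]
  linarith

theorem mQ_lip (n m : S2) {M M' : Fin 3 → Fin 3 → ℝ} {C : ℝ} (hM : ∀ i j, |M' i j| ≤ C)
    (h : ∀ i j, |M i j - M' i j| ≤ C * ‖(n : E3) - m‖) (k j : Fin 3) : ‖mQ n M k j - mQ m M' k j‖ ≤ 8 * C * ‖(n : E3) - m‖ := by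
  have hC : 0 ≤ C := (abs_nonneg _).trans (hM 0 0)
  have e : mQ n M k j - mQ m M' k j = ((M k j - M' k j : ℝ) : ℂ) -
      ((∑ i, (jm n i k * M i j - jm m i k * M' i j) : ℝ) : ℂ) * Complex.I := by
    unfold mQ
    simp only [Finset.sum_sub_distrib]
    push_cast
    ring
  rw [e]
  have h1 := aa1_I' (M k j - M' k j) (∑ i, (jm n i k * M i j - jm m i k * M' i j))
  have h3 : |∑ i, (jm n i k * M i j - jm m i k * M' i j)| ≤ 3 * (2 * C * ‖(n : E3) - m‖) :=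
    aa1_sum fun i => aa1_pl n m hM h i k j
  have h2 := h k j
  have h4 : 0 ≤ C * ‖(n : E3) - m‖ := mul_nonneg hC (norm_nonneg _)
  linarith

end H17S
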