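import Pool.Agent.Lib.H17S.A.A5
import Pool.Agent.Lib.H17S.MJ

set_option autoImplicit false

/-!
Chunk AA6 (S/M). Joint continuity of `alst`; the cut-off vector; joint continuity of `alt`.

`alst_cont`: `alst = - betam - i N - 4 / num * ∫ aI` by definition (`rfl` or `unfold alst aI`): `betam_cont`, `num_cont` (MJ) composed with `p ↦ (P, N, nsq V) ∈ Om3`, `num ≠ 0` (`num_pos`), and `aa_par_int` with `a5_cont`, `a5_dom`.
`cutV_eq`: with `X1 = (1 - k) Xc > 0` (`Xc_pos`): if `nsq V ≤ X1` and `V ≠ 0` both square roots are `√1`; if `nsq V = 0` then `V i = 0`; if `nsq V ≥ X1` then `min = X1`, `max = nsq V`.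
`nsq_cutV`: `nsq (c V) = c^2 nsq V`, `√(min/nsq V)^2 = min / nsq V`. `cutV_tan`: factor out. `cutV_quot`: for `nsq V ≥ X1 > 0`.
`alt_cont`: `alt B k τ P N n V = alst P N (B τ · n) n (cutV P N k V)`: `alst_cont` composed with `p ↦ (p.1, n, cutV P N k V)`, continuous by `cutV_cont`, in `DA` since `nsq (cutV ..) ≤ (1 - k) Xc < Xc`.
-/

open MeasureTheory Filter Topology Set
open scoped ContDiff ComplexConjugate

namespace H17S

open NullPen (E3 S2 sm proj)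

variable {B : ℝ → ℝ → S2 → Fin 3 → Fin 3 → ℝ} {C : ℝ}

theorem alst_cont (hB : Fam B C) : ContinuousOn
    (fun p : (ℝ × ℝ × ℝ) × S2 × (Fin 3 → ℝ) => alst p.1.2.1 p.1.2.2 (fun s => B p.1.1 s p.2.1) p.2.1 p.2.2) DA := by
  have h1 : ContinuousOn (fun p : (ℝ × ℝ × ℝ) × S2 × (Fin 3 → ℝ) => ∫ t in Ioi (0 : ℝ), aI B p t) DA :=
    aa_par_int (a5_cont hB) fun p hp => a5_dom hB hp
  have hm : ContinuousOn (fun p : (ℝ × ℝ × ℝ) × S2 × (Fin 3 → ℝ) => ((p.1.2.1, p.1.2.2, nsq p.2.2) : ℝ × ℝ × ℝ)) DA := by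
    have h2 : Continuous (fun p : (ℝ × ℝ × ℝ) × S2 × (Fin 3 → ℝ) => nsq p.2.2) :=
      aa_nsq_cont.comp (continuous_snd.comp continuous_snd)
    exact ((continuous_fst.comp (continuous_snd.comp continuous_fst)).prodMk
      ((continuous_snd.comp (continuous_snd.comp continuous_fst)).prodMk h2)).continuousOn
  have hmt : MapsTo (fun p : (ℝ × ℝ × ℝ) × S2 × (Fin 3 → ℝ) => ((p.1.2.1, p.1.2.2, nsq p.2.2) : ℝ × ℝ × ℝ)) DA Om3 :=
    fun p hp => ⟨hp.2.1, hp.2.2⟩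
  have hb := betam_cont.comp hm hmt
  have hn := num_cont.comp hm hmt
  have hb2 : ContinuousOn (fun p : (ℝ × ℝ × ℝ) × S2 × (Fin 3 → ℝ) => ((betam p.1.2.1 p.1.2.2 (nsq p.2.2) : ℝ) : ℂ)) DA :=
    Complex.continuous_ofReal.comp_continuousOn hb
  have hn2 : ContinuousOn (fun p : (ℝ × ℝ × ℝ) × S2 × (Fin 3 → ℝ) => ((num p.1.2.1 p.1.2.2 (nsq p.2.2) : ℝ) : ℂ)) DA :=
    Complex.continuous_ofReal.comp_continuousOn hn
  have hN : ContinuousOn (fun p : (ℝ × ℝ × ℝ) × S2 × (Fin 3 → ℝ) => ((p.1.2.2 : ℝ) : ℂ)) DA :=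
    (Complex.continuous_ofReal.comp (continuous_snd.comp (continuous_snd.comp continuous_fst))).continuousOn
  have h4 : ContinuousOn (fun p : (ℝ × ℝ × ℝ) × S2 × (Fin 3 → ℝ) => (4 : ℂ) / ((num p.1.2.1 p.1.2.2 (nsq p.2.2) : ℝ) : ℂ)) DA :=
    continuousOn_const.div hn2 fun p hp => by
      have := num_pos hp.2.1 hp.2.2
      exact_mod_cast this.ne'
  exact (hb2.neg.sub (hN.mul continuousOn_const)).sub (h4.mul h1)

theorem aa_X1_pos {P N k : ℝ} (hP : 0 < P) (hk : k < 1) : 0 < (1 - k) * Xc P N :=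
  mul_pos (by linarith) (Xc_pos N hP)

theorem aa6_zero {V : Fin 3 → ℝ} (h : nsq V = 0) (i : Fin 3) : V i = 0 := by
  have h2 : V i ^ 2 ≤ nsq V :=
    Finset.single_le_sum (f := fun i => V i ^ 2) (fun i _ => sq_nonneg _) (Finset.mem_univ i)
  rw [h] at h2
  exact pow_eq_zero_iff (two_ne_zero) |>.1 (le_antisymm h2 (sq_nonneg _))

theorem cutV_eq {P N k : ℝ} (hP : 0 < P) (hk : k < 1) (V : Fin 3 → ℝ) (i : Fin 3) :
    cutV P N k V i = Real.sqrt ((1 - k) * Xc P N / max (nsq V) ((1 - k) * Xc P N)) * V i := by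
  have hX := aa_X1_pos (N := N) hP hk
  unfold cutV
  rcases le_total (nsq V) ((1 - k) * Xc P N) with h | h
  · rw [min_eq_left h, max_eq_right h, div_self hX.ne']
    by_cases h0 : nsq V = 0
    · rw [aa6_zero h0 i, mul_zero, mul_zero]
    · rw [div_self h0]
  · rw [min_eq_right h, max_eq_left h]

theorem cutV_le {P N k : ℝ} (hP : 0 < P) (hk : k < 1) {V : Fin 3 → ℝ} (hV : nsq V ≤ (1 - k) * Xc P N) : cutV P N k V = V := by
  have hX := aa_X1_pos (N := N) hP hk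
  ext i
  rw [cutV_eq hP hk, max_eq_right hV, div_self hX.ne', Real.sqrt_one, one_mul]

theorem aa6_nsq (c : ℝ) (V : Fin 3 → ℝ) : nsq (fun i => c * V i) = c ^ 2 * nsq V := by
  unfold nsq
  rw [Finset.mul_sum]
  exact Finset.sum_congr rfl fun i _ => mul_pow c (V i) 2

theorem nsq_cutV {P N k : ℝ} (hP : 0 < P) (hk : k < 1) (V : Fin 3 → ℝ) :
    nsq (cutV P N k V) = min (nsq V) ((1 - k) * Xc P N) := by
  have hX := aa_X1_pos (N := N) hP hk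
  have h1 : cutV P N k V = fun i => Real.sqrt (min (nsq V) ((1 - k) * Xc P N) / nsq V) * V i := rfl
  rw [h1, aa6_nsq]
  by_cases h0 : nsq V = 0
  · rw [h0, mul_zero, min_eq_left hX.le]
  · have h2 : 0 ≤ min (nsq V) ((1 - k) * Xc P N) / nsq V :=
      div_nonneg (le_min (aa_nsq_nonneg V) hX.le) (aa_nsq_nonneg V)
    rw [Real.sq_sqrt h2, div_mul_cancel₀ _ h0]

theorem cutV_tan {P N k : ℝ} {n : E3} {V : Fin 3 → ℝ} (hV : ∑ i, n i * V i = 0) : ∑ i, n i * cutV P N k V i = 0 := by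
  unfold cutV
  have h1 : ∀ i, n i * (Real.sqrt (min (nsq V) ((1 - k) * Xc P N) / nsq V) * V i) =
      Real.sqrt (min (nsq V) ((1 - k) * Xc P N) / nsq V) * (n i * V i) := fun i => by ring
  rw [Finset.sum_congr rfl fun i _ => h1 i, ← Finset.mul_sum, hV, mul_zero]

theorem cutV_quot {P N k : ℝ} (hP : 0 < P) (hk : k < 1) {V : Fin 3 → ℝ} (hV : (1 - k) * Xc P N ≤ nsq V) (i j : Fin 3) :
    cutV P N k V i * cutV P N k V j / nsq (cutV P N k V) = V i * V j / nsq V := by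
  have hX := aa_X1_pos (N := N) hP hk
  have hV0 : 0 < nsq V := hX.trans_le hV
  rw [nsq_cutV hP hk, min_eq_right hV, cutV_eq hP hk, cutV_eq hP hk, max_eq_left hV]
  have h1 : Real.sqrt ((1 - k) * Xc P N / nsq V) * V i * (Real.sqrt ((1 - k) * Xc P N / nsq V) * V j) =
      (1 - k) * Xc P N / nsq V * (V i * V j) := by
    calc _ = (Real.sqrt ((1 - k) * Xc P N / nsq V) * Real.sqrt ((1 - k) * Xc P N / nsq V)) * (V i * V j) := by ring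
      _ = _ := by rw [Real.mul_self_sqrt (by positivity)]
  rw [h1]
  obtain ⟨x, hx⟩ : ∃ x, x = (1 - k) * Xc P N := ⟨_, rfl⟩
  rw [← hx] at hX ⊢
  have hx0 : x ≠ 0 := hX.ne'
  have hv0 : nsq V ≠ 0 := hV0.ne'
  rw [div_mul_eq_mul_div, div_div, mul_comm (nsq V) x, mul_div_mul_left _ _ hx0]

theorem cutV_cont {k : ℝ} (hk : k < 1) :
    ContinuousOn (fun p : (ℝ × ℝ) × (Fin 3 → ℝ) => cutV p.1.1 p.1.2 k p.2) ({q : ℝ × ℝ | 0 < q.1} ×ˢ univ) := by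
  rw [continuousOn_pi]
  intro i
  have hX : ContinuousOn (fun p : (ℝ × ℝ) × (Fin 3 → ℝ) => (1 - k) * Xc p.1.1 p.1.2) ({q : ℝ × ℝ | 0 < q.1} ×ˢ univ) :=
    continuousOn_const.mul (Xc_cont.comp continuousOn_fst fun p hp => hp.1)
  have hn : ContinuousOn (fun p : (ℝ × ℝ) × (Fin 3 → ℝ) => nsq p.2) ({q : ℝ × ℝ | 0 < q.1} ×ˢ univ) :=
    (aa_nsq_cont.comp continuous_snd).continuousOn
  have hi : ContinuousOn (fun p : (ℝ × ℝ) × (Fin 3 → ℝ) => p.2 i) ({q : ℝ × ℝ | 0 < q.1} ×ˢ univ) := by fun_prop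
  have h1 : ContinuousOn (fun p : (ℝ × ℝ) × (Fin 3 → ℝ) =>
      Real.sqrt ((1 - k) * Xc p.1.1 p.1.2 / max (nsq p.2) ((1 - k) * Xc p.1.1 p.1.2)) * p.2 i)
      ({q : ℝ × ℝ | 0 < q.1} ×ˢ univ) := by
    refine ContinuousOn.mul (Real.continuous_sqrt.comp_continuousOn (hX.div (hn.sup hX) fun p hp => ?_)) hi
    exact (lt_max_of_lt_right (aa_X1_pos hp.1 hk)).ne'
  exact h1.congr fun p hp => cutV_eq hp.1 hk p.2 i

theorem aa6_1 {k : ℝ} (hk : k ∈ Ioo (0 : ℝ) 1) :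
    ContinuousOn (fun p : (ℝ × ℝ × ℝ) × S2 × (Fin 3 → ℝ) => cutV p.1.2.1 p.1.2.2 k p.2.2)
      ((Icc (0 : ℝ) 1 ×ˢ (Ioi (0 : ℝ) ×ˢ (univ : Set ℝ))) ×ˢ univ) := by
  have hf : Continuous (fun p : (ℝ × ℝ × ℝ) × S2 × (Fin 3 → ℝ) => (((p.1.2.1, p.1.2.2), p.2.2) : (ℝ × ℝ) × (Fin 3 → ℝ))) :=
    ((continuous_fst.comp (continuous_snd.comp continuous_fst)).prodMk
      (continuous_snd.comp (continuous_snd.comp continuous_fst))).prodMk (continuous_snd.comp continuous_snd)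
  have hm : MapsTo (fun p : (ℝ × ℝ × ℝ) × S2 × (Fin 3 → ℝ) => (((p.1.2.1, p.1.2.2), p.2.2) : (ℝ × ℝ) × (Fin 3 → ℝ)))
      ((Icc (0 : ℝ) 1 ×ˢ (Ioi (0 : ℝ) ×ˢ (univ : Set ℝ))) ×ˢ univ) ({q : ℝ × ℝ | 0 < q.1} ×ˢ univ) :=
    fun p hp => ⟨hp.1.2.1, mem_univ _⟩
  have h0 := (cutV_cont hk.2).comp hf.continuousOn hm
  exact h0

theorem aa6_2 {k : ℝ} (hk : k ∈ Ioo (0 : ℝ) 1) :
    ContinuousOn (fun p : (ℝ × ℝ × ℝ) × S2 × (Fin 3 → ℝ) => ((p.1, p.2.1, cutV p.1.2.1 p.1.2.2 k p.2.2) : (ℝ × ℝ × ℝ) × S2 × (Fin 3 → ℝ)))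
      ((Icc (0 : ℝ) 1 ×ˢ (Ioi (0 : ℝ) ×ˢ (univ : Set ℝ))) ×ˢ univ) :=
  continuousOn_fst.prodMk ((continuous_fst.comp continuous_snd).continuousOn.prodMk (aa6_1 hk))

theorem aa6_3 {k : ℝ} (hk : k ∈ Ioo (0 : ℝ) 1) :
    MapsTo (fun p : (ℝ × ℝ × ℝ) × S2 × (Fin 3 → ℝ) => ((p.1, p.2.1, cutV p.1.2.1 p.1.2.2 k p.2.2) : (ℝ × ℝ × ℝ) × S2 × (Fin 3 → ℝ)))
      ((Icc (0 : ℝ) 1 ×ˢ (Ioi (0 : ℝ) ×ˢ (univ : Set ℝ))) ×ˢ univ) DA := by
  intro p hp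
  refine ⟨hp.1.1, hp.1.2.1, ?_⟩
  change nsq (cutV p.1.2.1 p.1.2.2 k p.2.2) < Xc p.1.2.1 p.1.2.2
  have hP : 0 < p.1.2.1 := hp.1.2.1
  rw [nsq_cutV hP hk.2]
  have h3 := Xc_pos p.1.2.2 hP
  have h4 := min_le_right (nsq p.2.2) ((1 - k) * Xc p.1.2.1 p.1.2.2)
  have h5 := hk.1
  nlinarith

theorem alt_cont (hB : Fam B C) {k : ℝ} (hk : k ∈ Ioo (0 : ℝ) 1) :
    ContinuousOn (fun p : (ℝ × ℝ × ℝ) × S2 × (Fin 3 → ℝ) => alt B k p.1.1 p.1.2.1 p.1.2.2 p.2.1 p.2.2)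
      ((Icc 0 1 ×ˢ (Ioi 0 ×ˢ univ)) ×ˢ univ) := by
  have h := (alst_cont hB).comp (aa6_2 hk) (aa6_3 hk)
  rw [Function.comp_def] at h
  unfold alt
  exact h

end H17S
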