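import Pool.Agent.Lib.H17S.A.A4
import Pool.Agent.Lib.H17S.A.A6
import Pool.Agent.Lib.H17S.ML

set_option autoImplicit false

/-!
Chunk AA10 (M). The form of `alt` beyond the cut-off level and the uniform bound.

`a10_u`: `unif_bound'` (ML) for the compact set `Rec p1 p2` (all `P ≥ p1 > 0`): a constant `Cu ≥ 0` for all `(P,N) ∈ Rec`, `0 ≤ X < Xc`.
`alt_far`: `Cg = 12 C Cu` (it bounds `6 C Cu`, `4 C Cu`, `8 C Cu`, as `0 ≤ C`, `0 ≤ Cu`). `X1 = (1-k) Xc`, `0 ≤ X1 < Xc`. `c n := c0 P N X1 (fun s => B τ s n) n`, `Q n i j := qQ P N X1 (fun s => B τ s n) n i j`: `c0_bd`, `qQ_bd`, `c0_lip`, `qQ_lip` with `hB.fb hτ n`;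
the hypothesis `hd` is `hB.lip`. For the formula: `alst_form` at `V' = cutV P N k V` (tangent by `cutV_tan`), `nsq V' = min (nsq V) X1 = X1` (`nsq_cutV`), and `cutV_quot`.
`alt_unif`: `alst_form` at `V'`, `X' = nsq V' = min (nsq V) X1 ∈ [0, Xc)`: the remaining terms are `c0` and `∑∑ qQ * (V'_k V'_j / X')` with `|V'_k V'_j / X'| ≤ 1` (`|V'_k V'_j| ≤ nsq V'`; for `X' = 0` the quotient is `0`), so the norm is at most `6 C Cu + 9 * 4 C Cu = 42 C Cu`.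
-/

open MeasureTheory Filter Topology Set
open scoped ContDiff ComplexConjugate

namespace H17S

open NullPen (E3 S2 sm proj)

variable {B : ℝ → ℝ → S2 → Fin 3 → Fin 3 → ℝ} {C : ℝ}

theorem a10_u {p1 p2 : ℝ} (h1 : 0 < p1) : ∃ Cu, 0 ≤ Cu ∧ ∀ P N : ℝ, (P, N) ∈ Rec p1 p2 → ∀ X, 0 ≤ X → X < Xc P N →
    4 / num P N X * ∫ s in Ioi (0 : ℝ), (‖(mo P N X).ac s‖ + ‖(mo P N X).aa s‖) ≤ Cu := by
  obtain ⟨C, hC, h⟩ := unif_bound' (K := Rec p1 p2) (isCompact_Icc.prod isCompact_Icc) (fun p hp => h1.trans_le hp.1.1)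
  exact ⟨C, hC, fun P N hPN X h0 hX => h (P, N) hPN X h0 hX⟩

theorem a10_X {p1 p2 k P N : ℝ} (h1 : 0 < p1) (hk : k ∈ Ioc (0 : ℝ) (1 / 2)) (hPN : (P, N) ∈ Rec p1 p2) :
    0 < P ∧ k < 1 ∧ 0 < (1 - k) * Xc P N ∧ (1 - k) * Xc P N < Xc P N := by
  have hP : 0 < P := h1.trans_le hPN.1.1
  have hk1 : k < 1 := by linarith [hk.2]
  have hX := aa_X1_pos (N := N) hP hk1
  refine ⟨hP, hk1, hX, ?_⟩
  have h2 : 0 < Xc P N := by
    by_contra hcon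
    push Not at hcon
    have : (1 - k) * Xc P N ≤ 0 := mul_nonpos_of_nonneg_of_nonpos (by linarith) hcon
    linarith
  nlinarith [mul_pos hk.1 h2]

theorem alt_far (hB : Fam B C) {p1 p2 : ℝ} (h1 : 0 < p1) : ∃ Cg, 0 ≤ Cg ∧ ∀ k ∈ Ioc (0 : ℝ) (1 / 2), ∀ τ ∈ Icc (0 : ℝ) 1,
    ∀ P N : ℝ, (P, N) ∈ Rec p1 p2 → ∃ (c : S2 → ℂ) (Q : S2 → Fin 3 → Fin 3 → ℂ), (∀ n, ‖c n‖ ≤ Cg) ∧ (∀ n i j, ‖Q n i j‖ ≤ Cg) ∧
      (∀ n m : S2, ‖c n - c m‖ ≤ Cg * ‖(n : E3) - m‖) ∧ (∀ n m : S2, ∀ i j, ‖Q n i j - Q m i j‖ ≤ Cg * ‖(n : E3) - m‖) ∧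
      ∀ (n : S2) (V : Fin 3 → ℝ), ∑ i, (n : E3) i * V i = 0 → (1 - k) * Xc P N ≤ nsq V →
        alt B k τ P N n V = - (betam P N ((1 - k) * Xc P N) : ℂ) - (N : ℂ) * Complex.I + c n +
          ∑ i, ∑ j, Q n i j * ((V i * V j / nsq V : ℝ) : ℂ) := by
  obtain ⟨Cu, hCu, u⟩ := a10_u (p2 := p2) h1
  have hC := hB.C_nonneg
  refine ⟨12 * C * Cu, by positivity, ?_⟩
  intro k hk τ hτ P N hPN
  obtain ⟨hP, hk1, hX0, hX1⟩ := a10_X h1 hk hPN
  have hu := u P N hPN _ hX0.le hX1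
  have hCC : 0 ≤ C * Cu := by positivity
  refine ⟨fun n => c0 P N ((1 - k) * Xc P N) (fun s => B τ s n) n, fun n i j => qQ P N ((1 - k) * Xc P N) (fun s => B τ s n) n i j,
    ?_, ?_, ?_, ?_, ?_⟩
  · intro n
    refine (c0_bd hP hX1 hu (hB.fb hτ n)).trans ?_
    nlinarith
  · intro n i j
    refine (qQ_bd hP hX1 hu (hB.fb hτ n) i j).trans ?_
    nlinarith
  · intro n m
    exact c0_lip hP hX1 hu (hB.fb hτ n) (hB.fb hτ m) (fun t ht i j => hB.lip τ hτ t ht n m i j)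
  · intro n m i j
    refine (qQ_lip hP hX1 hu (hB.fb hτ n) (hB.fb hτ m) (fun t ht i j => hB.lip τ hτ t ht n m i j) i j).trans ?_
    apply mul_le_mul_of_nonneg_right _ (norm_nonneg _)
    nlinarith
  · intro n V hV hle
    have e1 : nsq (cutV P N k V) = (1 - k) * Xc P N := by rw [nsq_cutV hP hk1, min_eq_right hle]
    have e2 := alst_form hP (hB.fb hτ n) (cutV_tan (P := P) (N := N) (k := k) hV) (by rw [e1]; exact hX1)
    simp only [cutV_quot hP hk1 hle] at e2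
    rw [e1] at e2
    exact e2

theorem a10_q (V : Fin 3 → ℝ) (k j : Fin 3) : |V k * V j / nsq V| ≤ 1 := by
  rcases (aa_nsq_nonneg V).eq_or_lt with h | h
  · rw [← h, div_zero, abs_zero]
    exact zero_le_one
  · rw [abs_div, abs_of_pos h, div_le_one h]
    have h1 : ∀ i, V i ^ 2 ≤ nsq V := fun i =>
      Finset.single_le_sum (f := fun i => V i ^ 2) (fun i _ => sq_nonneg _) (Finset.mem_univ i)
    have h2 := h1 k
    have h3 := h1 j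
    rw [abs_le]
    constructor
    · nlinarith [sq_nonneg (V k + V j)]
    · nlinarith [sq_nonneg (V k - V j)]

theorem alt_unif (hB : Fam B C) {p1 p2 : ℝ} (h1 : 0 < p1) : ∃ Cg, 0 ≤ Cg ∧ ∀ k ∈ Ioc (0 : ℝ) (1 / 2), ∀ τ ∈ Icc (0 : ℝ) 1,
    ∀ P N : ℝ, (P, N) ∈ Rec p1 p2 → ∀ (n : S2) (V : Fin 3 → ℝ), ∑ i, (n : E3) i * V i = 0 →
      ‖alt B k τ P N n V + (betam P N (min (nsq V) ((1 - k) * Xc P N)) : ℂ) + (N : ℂ) * Complex.I‖ ≤ Cg := by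
  obtain ⟨Cu, hCu, u⟩ := a10_u (p2 := p2) h1
  have hC := hB.C_nonneg
  refine ⟨42 * C * Cu, by positivity, ?_⟩
  intro k hk τ hτ P N hPN n V hV
  obtain ⟨hP, hk1, hX0, hX1⟩ := a10_X h1 hk hPN
  have e1 : nsq (cutV P N k V) = min (nsq V) ((1 - k) * Xc P N) := nsq_cutV hP hk1 V
  have hX' : nsq (cutV P N k V) < Xc P N := by
    rw [e1]
    exact (min_le_right _ _).trans_lt hX1
  have hX'0 : 0 ≤ nsq (cutV P N k V) := aa_nsq_nonneg _
  have hu := u P N hPN _ hX'0 hX'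
  have e2 := alst_form hP (hB.fb hτ n) (cutV_tan (P := P) (N := N) (k := k) hV) hX'
  have e3 : alt B k τ P N n V + (betam P N (min (nsq V) ((1 - k) * Xc P N)) : ℂ) + (N : ℂ) * Complex.I =
      c0 P N (nsq (cutV P N k V)) (fun s => B τ s n) n +
      ∑ i, ∑ j, qQ P N (nsq (cutV P N k V)) (fun s => B τ s n) n i j *
        ((cutV P N k V i * cutV P N k V j / nsq (cutV P N k V) : ℝ) : ℂ) := by
    unfold alt
    rw [e2, ← e1]
    ring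
  rw [e3]
  refine (norm_add_le _ _).trans ?_
  have b1 := c0_bd hP hX' hu (hB.fb hτ n)
  have b2 : ‖∑ i, ∑ j, qQ P N (nsq (cutV P N k V)) (fun s => B τ s n) n i j *
        ((cutV P N k V i * cutV P N k V j / nsq (cutV P N k V) : ℝ) : ℂ)‖ ≤ ∑ _i : Fin 3, ∑ _j : Fin 3, 4 * C * Cu := by
    refine (norm_sum_le _ _).trans (Finset.sum_le_sum fun i _ => ?_)
    refine (norm_sum_le _ _).trans (Finset.sum_le_sum fun j _ => ?_)
    rw [norm_mul, Complex.norm_real, Real.norm_eq_abs]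
    have b3 := qQ_bd hP hX' hu (hB.fb hτ n) i j
    have b4 := a10_q (cutV P N k V) i j
    calc _ ≤ 4 * C * Cu * 1 := mul_le_mul b3 b4 (abs_nonneg _) (by positivity)
      _ = _ := by ring
  have b5 : ∑ _i : Fin 3, ∑ _j : Fin 3, 4 * C * Cu = 36 * C * Cu := by
    simp
    ring
  rw [b5] at b2
  linarith

end H17S
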