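import Mathlib

set_option autoImplicit false

/-!
Chunk AA2 (M, pure Mathlib). Continuity of integrals over `(0, ∞)` depending on a parameter.

`a2_int`: `1 / (1 + t)^2` is integrable on `(0, ∞)` (`integrableOn_Ioi_rpow_of_lt`, `integrableOn_add_rpow_Ioi_of_lt`, or `integrableOn_Ioi_deriv_of_nonneg` with the primitive `- 1/(1+t)`); `a2_dom`: domination.
`aa_par_int`: `MeasureTheory.continuousWithinAt_of_dominated` with `μ = volume.restrict (Ioi 0)`, bound `t ↦ C / (1 + t)^2`; measurability of `f q ·` for `q ∈ U`: `ContinuousOn` on `Ici 0` (section of `hf`), `.mono Ioi_subset_Ici_self`,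
`.aestronglyMeasurable measurableSet_Ioi`; continuity of `q ↦ f q t` within `U` at `p` for `t ∈ Ioi 0`: section of `hf` (`hf (p,t) _`, compose with `q ↦ (q, t)`). The eventual statements: `self_mem_nhdsWithin`,
`ae_restrict_iff' measurableSet_Ioi`.
-/

open MeasureTheory Filter Topology Set

namespace H17S

theorem a2_int (C : ℝ) : IntegrableOn (fun t : ℝ => C / (1 + t) ^ 2) (Ioi 0) := by
  have h1 : IntegrableOn (fun t : ℝ => 1 / (1 + t) ^ 2) (Ioi 0) := by
    apply integrableOn_Ioi_deriv_of_nonneg (g := fun t : ℝ => - (1 / (1 + t))) (l := 0)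
    · apply ContinuousAt.continuousWithinAt
      have : (1 : ℝ) + 0 ≠ 0 := by norm_num
      fun_prop (disch := assumption)
    · intro x hx
      have hx0 : (0 : ℝ) < x := hx
      have h2 : (1 : ℝ) + x ≠ 0 := by positivity
      have h3 : HasDerivAt (fun t : ℝ => 1 + t) 1 x := by simpa using (hasDerivAt_id x).const_add 1
      have h4 := (h3.inv h2).neg
      have h5 : HasDerivAt (fun t : ℝ => - (1 / (1 + t))) (- (- 1 / (1 + x) ^ 2)) x := by
        refine h4.congr_of_eventuallyEq (Eventually.of_forall fun y => ?_)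
        simp
      convert h5 using 1
      ring
    · intro x hx
      positivity
    · have h6 : Tendsto (fun t : ℝ => 1 + t) atTop atTop := tendsto_atTop_add_const_left _ _ tendsto_id
      have h7 := h6.inv_tendsto_atTop.neg
      rw [neg_zero] at h7
      refine h7.congr fun t => ?_
      simp
  have h8 := h1.const_mul C
  refine h8.congr (Eventually.of_forall fun t => ?_)
  simp [div_eq_mul_inv]

theorem a2_dom {f : ℝ → ℂ} {C : ℝ} (hf : ContinuousOn f (Ici 0)) (hb : ∀ t, 0 ≤ t → ‖f t‖ ≤ C / (1 + t) ^ 2) :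
    IntegrableOn f (Ioi 0) := by
  refine Integrable.mono' (a2_int C) ?_ ?_
  · exact (hf.mono Ioi_subset_Ici_self).aestronglyMeasurable measurableSet_Ioi
  · refine (ae_restrict_iff' measurableSet_Ioi).2 (Eventually.of_forall fun t ht => ?_)
    exact hb t (le_of_lt ht)

theorem aa_par_int {Ω : Type*} [TopologicalSpace Ω] [FirstCountableTopology Ω] {U : Set Ω} {f : Ω → ℝ → ℂ}
    (hf : ContinuousOn (fun p : Ω × ℝ => f p.1 p.2) (U ×ˢ Ici 0))
    (hb : ∀ p ∈ U, ∃ C, ∀ᶠ q in 𝓝[U] p, ∀ t, 0 ≤ t → ‖f q t‖ ≤ C / (1 + t) ^ 2) :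
    ContinuousOn (fun p => ∫ t in Ioi (0 : ℝ), f p t) U := by
  intro p hp
  obtain ⟨C, hC⟩ := hb p hp
  have hsec : ∀ q ∈ U, ContinuousOn (f q) (Ici 0) := by
    intro q hq
    have h1 : ContinuousOn (fun t : ℝ => ((q, t) : Ω × ℝ)) (Ici 0) := by fun_prop
    exact hf.comp h1 (fun t ht => ⟨hq, ht⟩)
  apply continuousWithinAt_of_dominated (μ := volume.restrict (Ioi (0 : ℝ))) (bound := fun t => C / (1 + t) ^ 2)
  · filter_upwards [self_mem_nhdsWithin] with q hq
    exact ((hsec q hq).mono Ioi_subset_Ici_self).aestronglyMeasurable measurableSet_Ioi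
  · filter_upwards [hC] with q hq
    refine (ae_restrict_iff' measurableSet_Ioi).2 (Eventually.of_forall fun t ht => ?_)
    exact hq t (le_of_lt ht)
  · exact a2_int C
  · refine (ae_restrict_iff' measurableSet_Ioi).2 (Eventually.of_forall fun t ht => ?_)
    have ht0 : (0 : ℝ) < t := ht
    have h1 := hf (p, t) ⟨hp, ht0.le⟩
    have h2 : Tendsto (fun q : Ω => ((q, t) : Ω × ℝ)) (𝓝[U] p) (𝓝[U ×ˢ Ici 0] (p, t)) := by
      refine tendsto_nhdsWithin_iff.2 ⟨?_, ?_⟩
      · exact (Continuous.prodMk_left t).continuousAt.tendsto.mono_left nhdsWithin_le_nhds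
      · filter_upwards [self_mem_nhdsWithin] with q hq
        exact ⟨hq, ht0.le⟩
    exact h1.tendsto.comp h2

end H17S
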