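import Pool.Agent.Lib.H17S.A.A1
import Pool.Agent.Lib.H17S.A.A2
import Pool.Agent.Lib.H17S.MK

set_option autoImplicit false

/-!
Chunk AA3 (M). Integrability and the formula for `alst`.

`a3_dec`: `lam_bdd` (MK) for the compact set `{(P, N, X)} ⊆ Om3`: one constant `D` with `‖ac s‖ ≤ D/(1+s)^3`, `‖lamX s‖ ≤ D/(1+s)^4` for `s ≥ 0`; weaken the powers to 2 (`(1+s)^2 ≤ (1+s)^3`), `aa = X lamX` (also `‖s * lamX s‖ ≤ D/(1+s)^2`).
`a3_cont`: `ac_cont`, `lamX_cont` (MK) on the slice `{(P,N,X)} × Ici 0`.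
`a3_aC`, `a3_mQ`: `t ↦ aC n (MT B n t)`, `t ↦ mQ n (MT B n t) k j` are continuous on `Ici 0` (finite sums of the continuous functions `B t i j - t * proj n i j`).
`a3_int`: the products with `conj ac`, `aa`, `lamX` are integrable on `Ioi 0`: `a2_dom` with the constants `6 C D` etc. (`aC_bd`, `mQ_bd`, `FB.bd`).
`alst_form`: in `alst` (with `X = nsq V`) replace `aC n (B t) - t` by `aC n (MT B n t)` (`aC_frame`, `MT` unfolded) and `qC n (B t) V` by `∑∑ mQ (V k V j) - X conj (aC ..)` (`qC_frame`, the last term is zero since `V` is tangent).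
So the integrand is `(conj ac * aC(M) + aa * conj (aC(M))) - ∑_k ∑_j (V k V j) * (lamX * mQ k j)`; integrate term by term (`integral_sub`, `integral_finset_sum`, `integral_const_mul`).
If `X = nsq V = 0` then `V = 0` and the sums vanish on both sides. If `X ≠ 0`: `(V k V j) * ∫ lamX * mQ = (V k V j / X) * ∫ aa * mQ`.
-/

open MeasureTheory Filter Topology Set
open scoped ContDiff ComplexConjugate

namespace H17S

open NullPen (E3 S2 sm proj)

theorem a3_dec {P N X : ℝ} (hP : 0 < P) (hX : X < Xc P N) : ∃ D, 0 ≤ D ∧ ∀ s, 0 ≤ s →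
    ‖(mo P N X).ac s‖ ≤ D / (1 + s) ^ 2 ∧ ‖(mo P N X).aa s‖ ≤ D / (1 + s) ^ 2 ∧ ‖(mo P N X).lamX s‖ ≤ D / (1 + s) ^ 2 ∧
      ‖(s : ℂ) * (mo P N X).lamX s‖ ≤ D / (1 + s) ^ 2 := by
  obtain ⟨D1, h1⟩ : ∃ D1, ∀ s, 0 ≤ s → ‖(mo P N X).ac s‖ ≤ D1 / (1 + s) ^ 3 ∧ ‖(mo P N X).lamX s‖ ≤ D1 / (1 + s) ^ 4 := by
    obtain ⟨D, -, h⟩ := lam_bdd (K := {(P, N, X)}) isCompact_singleton (by
      rintro p rfl
      exact ⟨hP, hX⟩)
    exact ⟨D, fun s hs => ⟨(h _ rfl s hs).2.2.2, (h _ rfl s hs).2.2.1⟩⟩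
  have hD1 : 0 ≤ D1 := by
    have h2 := (h1 0 le_rfl).1
    have h3 := (norm_nonneg _).trans h2
    simpa using h3
  refine ⟨D1 * (1 + |X|), by positivity, fun s hs => ?_⟩
  obtain ⟨ha, hl⟩ := h1 s hs
  have hs1 : (1 : ℝ) ≤ 1 + s := by linarith
  have hp : 0 < 1 + s := by linarith
  have hX0 := abs_nonneg X
  have hl' : ‖(mo P N X).lamX s‖ ≤ D1 / (1 + s) ^ 2 := by
    refine hl.trans (div_le_div_of_nonneg_left hD1 (by positivity) ?_)
    exact pow_le_pow_right₀ hs1 (by norm_num)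
  have hD : D1 / (1 + s) ^ 2 ≤ D1 * (1 + |X|) / (1 + s) ^ 2 := by
    refine div_le_div_of_nonneg_right ?_ (by positivity)
    nlinarith
  refine ⟨?_, ?_, hl'.trans hD, ?_⟩
  · refine (ha.trans (div_le_div_of_nonneg_left hD1 (by positivity) ?_)).trans hD
    exact pow_le_pow_right₀ hs1 (by norm_num)
  · show ‖((X : ℝ) : ℂ) * (mo P N X).lamX s‖ ≤ _
    rw [norm_mul, Complex.norm_real, Real.norm_eq_abs]
    calc |X| * ‖(mo P N X).lamX s‖ ≤ |X| * (D1 / (1 + s) ^ 2) := mul_le_mul_of_nonneg_left hl' hX0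
      _ = D1 * |X| / (1 + s) ^ 2 := by ring
      _ ≤ D1 * (1 + |X|) / (1 + s) ^ 2 := by
          refine div_le_div_of_nonneg_right ?_ (by positivity)
          nlinarith
  · rw [norm_mul, Complex.norm_real, Real.norm_eq_abs, abs_of_nonneg hs]
    have e : D1 / (1 + s) ^ 3 = (1 + s) * (D1 / (1 + s) ^ 4) := by
      field_simp
    have h3 : s * ‖(mo P N X).lamX s‖ ≤ D1 / (1 + s) ^ 3 := by
      rw [e]
      exact mul_le_mul (by linarith) hl (norm_nonneg _) hp.le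
    refine (h3.trans (div_le_div_of_nonneg_left hD1 (by positivity) ?_)).trans hD
    exact pow_le_pow_right₀ hs1 (by norm_num)

private theorem aa3_slice {P N X : ℝ} (hP : 0 < P) (hX : X < Xc P N) {f : (ℝ × ℝ × ℝ) × ℝ → ℂ}
    (hf : ContinuousOn f (Om3 ×ˢ Ici 0)) : ContinuousOn (fun s => f ((P, N, X), s)) (Ici 0) := by
  have h1 : ContinuousOn (fun s : ℝ => (((P, N, X), s) : (ℝ × ℝ × ℝ) × ℝ)) (Ici 0) := by fun_prop
  exact hf.comp h1 fun s hs => ⟨⟨hP, hX⟩, hs⟩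

theorem a3_cont {P N X : ℝ} (hP : 0 < P) (hX : X < Xc P N) : ContinuousOn (fun s => (mo P N X).ac s) (Ici 0) ∧
    ContinuousOn (fun s => (mo P N X).aa s) (Ici 0) ∧ ContinuousOn (fun s => (mo P N X).lamX s) (Ici 0) := by
  have hl := aa3_slice hP hX lamX_cont
  exact ⟨aa3_slice hP hX ac_cont, continuousOn_const.mul hl, hl⟩

private theorem aa3_MT {B : ℝ → Fin 3 → Fin 3 → ℝ} {n : S2} {C : ℝ} (hF : FB B n C) (i j : Fin 3) :
    ContinuousOn (fun t => MT B n t i j) (Ici 0) :=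
  (hF.cont i j).sub (continuousOn_id.mul continuousOn_const)

theorem a3_aC {B : ℝ → Fin 3 → Fin 3 → ℝ} {n : S2} {C : ℝ} (hF : FB B n C) :
    ContinuousOn (fun t => aC n (MT B n t)) (Ici 0) := by
  unfold aC
  refine ContinuousOn.div_const (ContinuousOn.add ?_ (ContinuousOn.mul ?_ continuousOn_const)) 2
  · exact Complex.continuous_ofReal.comp_continuousOn (continuousOn_finsetSum _ fun i _ => aa3_MT hF i i)
  · exact Complex.continuous_ofReal.comp_continuousOn (continuousOn_finsetSum _ fun i _ =>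
      continuousOn_finsetSum _ fun j _ => continuousOn_const.mul (aa3_MT hF i j))

theorem a3_mQ {B : ℝ → Fin 3 → Fin 3 → ℝ} {n : S2} {C : ℝ} (hF : FB B n C) (k j : Fin 3) :
    ContinuousOn (fun t => mQ n (MT B n t) k j) (Ici 0) := by
  unfold mQ
  refine ContinuousOn.sub ?_ (ContinuousOn.mul ?_ continuousOn_const)
  · exact Complex.continuous_ofReal.comp_continuousOn (aa3_MT hF k j)
  · exact Complex.continuous_ofReal.comp_continuousOn (continuousOn_finsetSum _ fun i _ =>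
      continuousOn_const.mul (aa3_MT hF i j))

private theorem aa3_conj {f : ℝ → ℂ} {U : Set ℝ} (hf : ContinuousOn f U) : ContinuousOn (fun t => conj (f t)) U :=
  Complex.continuous_conj.comp_continuousOn hf

private theorem aa3_b {x y : ℂ} {D K q : ℝ} (hx : ‖x‖ ≤ D / q) (hy : ‖y‖ ≤ K) (hD : 0 ≤ D / q) : ‖x * y‖ ≤ D * K / q := by
  rw [norm_mul]
  calc ‖x‖ * ‖y‖ ≤ D / q * K := mul_le_mul hx hy (norm_nonneg _) hD
    _ = D * K / q := by ring

theorem a3_int {P N X : ℝ} (hP : 0 < P) (hX : X < Xc P N) {B : ℝ → Fin 3 → Fin 3 → ℝ} {n : S2} {C : ℝ} (hF : FB B n C) :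
    IntegrableOn (fun t => conj ((mo P N X).ac t) * aC n (MT B n t)) (Ioi 0) ∧
      IntegrableOn (fun t => (mo P N X).aa t * conj (aC n (MT B n t))) (Ioi 0) ∧
      (∀ k j, IntegrableOn (fun t => (mo P N X).aa t * mQ n (MT B n t) k j) (Ioi 0)) ∧
      ∀ k j, IntegrableOn (fun t => (mo P N X).lamX t * mQ n (MT B n t) k j) (Ioi 0) := by
  obtain ⟨D, hD, hb⟩ := a3_dec hP hX
  obtain ⟨c1, c2, c3⟩ := a3_cont hP hX
  have hq : ∀ t : ℝ, 0 ≤ t → 0 ≤ D / (1 + t) ^ 2 := fun t ht => by positivity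
  have hA : ∀ t, 0 ≤ t → ‖aC n (MT B n t)‖ ≤ 6 * C := fun t ht => aC_bd n (hF.bd t ht)
  have hQ : ∀ t, 0 ≤ t → ∀ k j, ‖mQ n (MT B n t) k j‖ ≤ 4 * C := fun t ht => mQ_bd n (hF.bd t ht)
  refine ⟨?_, ?_, fun k j => ?_, fun k j => ?_⟩
  · refine a2_dom (C := D * (6 * C)) ((aa3_conj c1).mul (a3_aC hF)) fun t ht => ?_
    exact aa3_b (by rw [RCLike.norm_conj]; exact (hb t ht).1) (hA t ht) (hq t ht)
  · refine a2_dom (C := D * (6 * C)) (c2.mul (aa3_conj (a3_aC hF))) fun t ht => ?_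
    exact aa3_b (hb t ht).2.1 (by rw [RCLike.norm_conj]; exact hA t ht) (hq t ht)
  · refine a2_dom (C := D * (4 * C)) (c2.mul (a3_mQ hF k j)) fun t ht => ?_
    exact aa3_b (hb t ht).2.1 (hQ t ht k j) (hq t ht)
  · refine a2_dom (C := D * (4 * C)) (c3.mul (a3_mQ hF k j)) fun t ht => ?_
    exact aa3_b (hb t ht).2.2.1 (hQ t ht k j) (hq t ht)

theorem alst_form {P N : ℝ} (hP : 0 < P) {B : ℝ → Fin 3 → Fin 3 → ℝ} {n : S2} {C : ℝ} (hF : FB B n C) {V : Fin 3 → ℝ}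
    (hV : ∑ i, (n : E3) i * V i = 0) (hX : nsq V < Xc P N) :
    alst P N B n V = - (betam P N (nsq V) : ℂ) - (N : ℂ) * Complex.I + c0 P N (nsq V) B n +
      ∑ k, ∑ j, qQ P N (nsq V) B n k j * ((V k * V j / nsq V : ℝ) : ℂ) := by
  obtain ⟨i1, i2, i3, i4⟩ := a3_int hP hX hF
  obtain ⟨X, hXd⟩ : ∃ X : ℝ, X = nsq V := ⟨_, rfl⟩
  have hfun : ∀ t : ℝ, conj ((mo P N (nsq V)).ac t) * (aC n (B t) - (t : ℂ)) - (mo P N (nsq V)).lamX t * qC n (B t) V =
      (conj ((mo P N (nsq V)).ac t) * aC n (MT B n t) + (mo P N (nsq V)).aa t * conj (aC n (MT B n t))) -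
        ∑ k, ∑ j, ((V k * V j : ℝ) : ℂ) * ((mo P N (nsq V)).lamX t * mQ n (MT B n t) k j) := by
    intro t
    have e1 := aC_frame n (B t) t
    have e2 := qC_frame n (B t) t V
    rw [hV] at e2
    have e3 : (fun i j => B t i j - t * proj n i j) = MT B n t := rfl
    rw [e3] at e1 e2
    have e4 : (mo P N (nsq V)).aa t = ((nsq V : ℝ) : ℂ) * (mo P N (nsq V)).lamX t := rfl
    have e5 : ∑ k, ∑ j, ((V k * V j : ℝ) : ℂ) * ((mo P N (nsq V)).lamX t * mQ n (MT B n t) k j) =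
        (mo P N (nsq V)).lamX t * ∑ k, ∑ j, mQ n (MT B n t) k j * ((V k * V j : ℝ) : ℂ) := by
      simp only [Finset.mul_sum]
      exact Finset.sum_congr rfl fun k _ => Finset.sum_congr rfl fun j _ => by ring
    rw [e1, e2, e4, e5]
    push_cast
    ring
  have hint : ∫ t in Ioi (0 : ℝ), (conj ((mo P N (nsq V)).ac t) * (aC n (B t) - (t : ℂ)) -
      (mo P N (nsq V)).lamX t * qC n (B t) V) =
      (∫ t in Ioi (0 : ℝ), (conj ((mo P N (nsq V)).ac t) * aC n (MT B n t) +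
        (mo P N (nsq V)).aa t * conj (aC n (MT B n t)))) -
      ∑ k, ∑ j, ((V k * V j : ℝ) : ℂ) * ∫ t in Ioi (0 : ℝ), (mo P N (nsq V)).lamX t * mQ n (MT B n t) k j := by
    simp only [hfun]
    rw [integral_sub]
    · congr 1
      rw [integral_finsetSum _ fun k _ => integrable_finsetSum _ fun j _ => (i4 k j).const_mul _]
      refine Finset.sum_congr rfl fun k _ => ?_
      rw [integral_finsetSum _ fun j _ => (i4 k j).const_mul _]
      refine Finset.sum_congr rfl fun j _ => ?_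
      rw [integral_const_mul]
    · exact i1.add i2
    · exact integrable_finsetSum _ fun k _ => integrable_finsetSum _ fun j _ => (i4 k j).const_mul _
  have hQ : ∀ k j, qQ P N (nsq V) B n k j * ((V k * V j / nsq V : ℝ) : ℂ) =
      4 / (num P N (nsq V) : ℂ) * (((V k * V j : ℝ) : ℂ) *
        ∫ t in Ioi (0 : ℝ), (mo P N (nsq V)).lamX t * mQ n (MT B n t) k j) := by
    intro k j
    unfold qQ
    have e4 : ∀ t, (mo P N (nsq V)).aa t * mQ n (MT B n t) k j =
        ((nsq V : ℝ) : ℂ) * ((mo P N (nsq V)).lamX t * mQ n (MT B n t) k j) := fun t => by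
      show ((nsq V : ℝ) : ℂ) * (mo P N (nsq V)).lamX t * mQ n (MT B n t) k j = _
      ring
    simp only [e4]
    rw [integral_const_mul]
    by_cases h0 : nsq V = 0
    · have hk : V k = 0 := by
        have h1 : V k ^ 2 ≤ nsq V := by
          unfold nsq
          exact Finset.single_le_sum (f := fun i => V i ^ 2) (fun i _ => sq_nonneg _) (Finset.mem_univ k)
        rw [h0] at h1
        exact pow_eq_zero_iff two_ne_zero |>.1 (le_antisymm h1 (sq_nonneg _))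
      rw [hk]
      simp
    · have h1 : ((nsq V : ℝ) : ℂ) ≠ 0 := by exact_mod_cast h0
      push_cast
      field_simp
  simp only [hQ]
  unfold alst c0
  rw [hint]
  simp only [← Finset.mul_sum]
  ring

end H17S
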