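import Pool.Agent.Lib.H17S.A.A3

set_option autoImplicit false

/-!
Chunk AA4 (M). Bounds of `c0`, `qQ` with the constant `Cu` of `unif_bound'`.

Write `I := ∫ (‖ac‖ + ‖aa‖)` over `Ioi 0`, `4 / num * I ≤ Cu`, `num > 0` (`num_pos`, MJ). `‖4 / (num : ℂ)‖ = 4 / num`. `c0_bd`: `‖∫ f‖ ≤ ∫ ‖f‖ ≤ ∫ 6 C (‖ac‖ + ‖aa‖)` (`norm_integral_le_integral_norm`, `setIntegral_mono_on` with the integrability of
`‖ac‖ + ‖aa‖` (`a4_int` from `a3_dec`, `a3_cont`, `a2_dom`) and `a3_int`; pointwise `aC_bd`, `FB.bd`, `‖conj z‖ = ‖z‖`). `qQ_bd`: `‖aa‖ * 4 C ≤ 4 C (‖ac‖ + ‖aa‖)`.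
`c0_lip`: the difference of the two integrals is the integral of the difference (`integral_sub`, `a3_int` for both), `= ∫ (conj ac * (aC n M - aC m M') + aa * conj (aC n M - aC m M'))`, pointwise `aC_lip`. `qQ_lip`: `mQ_lip`.
-/

open MeasureTheory Filter Topology Set
open scoped ContDiff ComplexConjugate

namespace H17S

open NullPen (E3 S2 sm proj)

theorem a4_int {P N X : ℝ} (hP : 0 < P) (hX : X < Xc P N) :
    IntegrableOn (fun s => ‖(mo P N X).ac s‖ + ‖(mo P N X).aa s‖) (Ioi 0) := by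
  obtain ⟨D, hD, hb⟩ := a3_dec hP hX
  obtain ⟨hc1, hc2, hc3⟩ := a3_cont hP hX
  exact (a2_dom hc1 (fun t ht => (hb t ht).1)).norm.add (a2_dom hc2 (fun t ht => (hb t ht).2.1)).norm

theorem a4_gen {P N X Cu : ℝ} (hP : 0 < P) (hX : X < Xc P N)
    (hu : 4 / num P N X * ∫ s in Ioi (0 : ℝ), (‖(mo P N X).ac s‖ + ‖(mo P N X).aa s‖) ≤ Cu)
    {f : ℝ → ℂ} {K : ℝ} (hK : 0 ≤ K) (hf : IntegrableOn f (Ioi 0))
    (hb : ∀ t, 0 < t → ‖f t‖ ≤ K * (‖(mo P N X).ac t‖ + ‖(mo P N X).aa t‖)) :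
    ‖(4 / (num P N X : ℂ)) * ∫ t in Ioi (0 : ℝ), f t‖ ≤ K * Cu := by
  have hn := num_pos hP hX
  have hI := a4_int hP hX
  have h1 : ‖∫ t in Ioi (0 : ℝ), f t‖ ≤ K * ∫ s in Ioi (0 : ℝ), (‖(mo P N X).ac s‖ + ‖(mo P N X).aa s‖) := by
    rw [← integral_const_mul]
    refine (norm_integral_le_integral_norm _).trans ?_
    exact setIntegral_mono_on hf.norm (hI.const_mul K) measurableSet_Ioi (fun t ht => hb t ht)
  have h2 : ‖(4 / (num P N X : ℂ))‖ = 4 / num P N X := by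
    rw [norm_div, Complex.norm_real, Real.norm_of_nonneg hn.le]
    norm_num
  rw [norm_mul, h2]
  have h3 : 0 ≤ 4 / num P N X := by positivity
  calc 4 / num P N X * ‖∫ t in Ioi (0 : ℝ), f t‖ ≤
      4 / num P N X * (K * ∫ s in Ioi (0 : ℝ), (‖(mo P N X).ac s‖ + ‖(mo P N X).aa s‖)) :=
        mul_le_mul_of_nonneg_left h1 h3
    _ = K * (4 / num P N X * ∫ s in Ioi (0 : ℝ), (‖(mo P N X).ac s‖ + ‖(mo P N X).aa s‖)) := by ring
    _ ≤ K * Cu := mul_le_mul_of_nonneg_left hu hK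

theorem c0_bd {P N X Cu : ℝ} (hP : 0 < P) (hX : X < Xc P N)
    (hu : 4 / num P N X * ∫ s in Ioi (0 : ℝ), (‖(mo P N X).ac s‖ + ‖(mo P N X).aa s‖) ≤ Cu)
    {B : ℝ → Fin 3 → Fin 3 → ℝ} {n : S2} {C : ℝ} (hF : FB B n C) : ‖c0 P N X B n‖ ≤ 6 * C * Cu := by
  have hC := hF.nn
  have hI := a3_int hP hX hF
  unfold c0
  rw [neg_mul, norm_neg]
  refine a4_gen hP hX hu (by positivity) (hI.1.add hI.2.1) (fun t ht => ?_)
  have h1 : ‖aC n (MT B n t)‖ ≤ 6 * C := aC_bd n (hF.bd t ht.le)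
  calc ‖conj ((mo P N X).ac t) * aC n (MT B n t) + (mo P N X).aa t * conj (aC n (MT B n t))‖ ≤
      ‖conj ((mo P N X).ac t) * aC n (MT B n t)‖ + ‖(mo P N X).aa t * conj (aC n (MT B n t))‖ := norm_add_le _ _
    _ = ‖(mo P N X).ac t‖ * ‖aC n (MT B n t)‖ + ‖(mo P N X).aa t‖ * ‖aC n (MT B n t)‖ := by
      rw [norm_mul, norm_mul, RCLike.norm_conj, RCLike.norm_conj]
    _ = ‖aC n (MT B n t)‖ * (‖(mo P N X).ac t‖ + ‖(mo P N X).aa t‖) := by ring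
    _ ≤ 6 * C * (‖(mo P N X).ac t‖ + ‖(mo P N X).aa t‖) := mul_le_mul_of_nonneg_right h1 (by positivity)

theorem qQ_bd {P N X Cu : ℝ} (hP : 0 < P) (hX : X < Xc P N)
    (hu : 4 / num P N X * ∫ s in Ioi (0 : ℝ), (‖(mo P N X).ac s‖ + ‖(mo P N X).aa s‖) ≤ Cu)
    {B : ℝ → Fin 3 → Fin 3 → ℝ} {n : S2} {C : ℝ} (hF : FB B n C) (k j : Fin 3) : ‖qQ P N X B n k j‖ ≤ 4 * C * Cu := by
  have hC := hF.nn
  have hI := a3_int hP hX hF
  unfold qQ
  refine a4_gen hP hX hu (by positivity) (hI.2.2.1 k j) (fun t ht => ?_)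
  have h1 : ‖mQ n (MT B n t) k j‖ ≤ 4 * C := mQ_bd n (hF.bd t ht.le) k j
  rw [norm_mul]
  have h2 : 0 ≤ ‖(mo P N X).ac t‖ := norm_nonneg _
  have h3 : 0 ≤ ‖(mo P N X).aa t‖ := norm_nonneg _
  have h4 : 0 ≤ C * ‖(mo P N X).ac t‖ := by positivity
  nlinarith [mul_le_mul_of_nonneg_left h1 h3]

theorem c0_lip {P N X Cu : ℝ} (hP : 0 < P) (hX : X < Xc P N)
    (hu : 4 / num P N X * ∫ s in Ioi (0 : ℝ), (‖(mo P N X).ac s‖ + ‖(mo P N X).aa s‖) ≤ Cu)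
    {B B' : ℝ → Fin 3 → Fin 3 → ℝ} {n m : S2} {C : ℝ} (hF : FB B n C) (hF' : FB B' m C)
    (hd : ∀ t, 0 ≤ t → ∀ i j, |MT B n t i j - MT B' m t i j| ≤ C * ‖(n : E3) - m‖) :
    ‖c0 P N X B n - c0 P N X B' m‖ ≤ 12 * C * Cu * ‖(n : E3) - m‖ := by
  have hC := hF.nn
  have hI := a3_int hP hX hF
  have hI' := a3_int hP hX hF'
  have h0 : c0 P N X B n - c0 P N X B' m = - ((4 / (num P N X : ℂ)) * ∫ t in Ioi (0 : ℝ),
      (conj ((mo P N X).ac t) * (aC n (MT B n t) - aC m (MT B' m t)) +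
        (mo P N X).aa t * conj (aC n (MT B n t) - aC m (MT B' m t)))) := by
    have h1 : (∫ t in Ioi (0 : ℝ), (conj ((mo P N X).ac t) * (aC n (MT B n t) - aC m (MT B' m t)) +
        (mo P N X).aa t * conj (aC n (MT B n t) - aC m (MT B' m t)))) =
        (∫ t in Ioi (0 : ℝ), (conj ((mo P N X).ac t) * aC n (MT B n t) + (mo P N X).aa t * conj (aC n (MT B n t)))) -
        ∫ t in Ioi (0 : ℝ), (conj ((mo P N X).ac t) * aC m (MT B' m t) + (mo P N X).aa t * conj (aC m (MT B' m t))) := by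
      refine Eq.trans ?_ (integral_sub (hI.1.add hI.2.1) (hI'.1.add hI'.2.1))
      congr 1
      funext t
      simp only [Pi.add_apply, map_sub]
      ring
    unfold c0
    rw [h1]
    ring
  rw [h0, norm_neg]
  have h5 : 12 * C * Cu * ‖(n : E3) - m‖ = (12 * C * ‖(n : E3) - m‖) * Cu := by ring
  rw [h5]
  refine a4_gen hP hX hu (by positivity) ?_ (fun t ht => ?_)
  · refine ((hI.1.sub hI'.1).add (hI.2.1.sub hI'.2.1)).congr (Eventually.of_forall fun t => ?_)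
    simp only [Pi.add_apply, Pi.sub_apply, map_sub]
    ring
  have h1 : ‖aC n (MT B n t) - aC m (MT B' m t)‖ ≤ 12 * C * ‖(n : E3) - m‖ :=
    aC_lip n m (hF'.bd t ht.le) (hd t ht.le)
  calc ‖conj ((mo P N X).ac t) * (aC n (MT B n t) - aC m (MT B' m t)) +
        (mo P N X).aa t * conj (aC n (MT B n t) - aC m (MT B' m t))‖ ≤
      ‖conj ((mo P N X).ac t) * (aC n (MT B n t) - aC m (MT B' m t))‖ +
        ‖(mo P N X).aa t * conj (aC n (MT B n t) - aC m (MT B' m t))‖ := norm_add_le _ _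
    _ = ‖aC n (MT B n t) - aC m (MT B' m t)‖ * (‖(mo P N X).ac t‖ + ‖(mo P N X).aa t‖) := by
      rw [norm_mul, norm_mul, RCLike.norm_conj, RCLike.norm_conj]
      ring
    _ ≤ 12 * C * ‖(n : E3) - m‖ * (‖(mo P N X).ac t‖ + ‖(mo P N X).aa t‖) :=
      mul_le_mul_of_nonneg_right h1 (by positivity)

theorem qQ_lip {P N X Cu : ℝ} (hP : 0 < P) (hX : X < Xc P N)
    (hu : 4 / num P N X * ∫ s in Ioi (0 : ℝ), (‖(mo P N X).ac s‖ + ‖(mo P N X).aa s‖) ≤ Cu)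
    {B B' : ℝ → Fin 3 → Fin 3 → ℝ} {n m : S2} {C : ℝ} (hF : FB B n C) (hF' : FB B' m C)
    (hd : ∀ t, 0 ≤ t → ∀ i j, |MT B n t i j - MT B' m t i j| ≤ C * ‖(n : E3) - m‖) (k j : Fin 3) :
    ‖qQ P N X B n k j - qQ P N X B' m k j‖ ≤ 8 * C * Cu * ‖(n : E3) - m‖ := by
  have hC := hF.nn
  have hI := (a3_int hP hX hF).2.2.1 k j
  have hI' := (a3_int hP hX hF').2.2.1 k j
  have h0 : qQ P N X B n k j - qQ P N X B' m k j = (4 / (num P N X : ℂ)) * ∫ t in Ioi (0 : ℝ),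
      ((mo P N X).aa t * (mQ n (MT B n t) k j - mQ m (MT B' m t) k j)) := by
    have h1 : (∫ t in Ioi (0 : ℝ), ((mo P N X).aa t * (mQ n (MT B n t) k j - mQ m (MT B' m t) k j))) =
        (∫ t in Ioi (0 : ℝ), (mo P N X).aa t * mQ n (MT B n t) k j) -
        ∫ t in Ioi (0 : ℝ), (mo P N X).aa t * mQ m (MT B' m t) k j := by
      rw [← integral_sub hI hI']
      congr 1
      funext t
      ring
    unfold qQ
    rw [h1]
    ring
  rw [h0]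
  have h5 : 8 * C * Cu * ‖(n : E3) - m‖ = (8 * C * ‖(n : E3) - m‖) * Cu := by ring
  rw [h5]
  refine a4_gen hP hX hu (by positivity) ?_ (fun t ht => ?_)
  · refine (hI.sub hI').congr (Eventually.of_forall fun t => ?_)
    simp only [Pi.sub_apply]
    ring
  have h1 : ‖mQ n (MT B n t) k j - mQ m (MT B' m t) k j‖ ≤ 8 * C * ‖(n : E3) - m‖ :=
    mQ_lip n m (hF'.bd t ht.le) (hd t ht.le) k j
  rw [norm_mul]
  have h3 : 0 ≤ ‖(mo P N X).aa t‖ := norm_nonneg _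
  have h4 : 0 ≤ 8 * C * ‖(n : E3) - m‖ * ‖(mo P N X).ac t‖ := by positivity
  nlinarith [mul_le_mul_of_nonneg_left h1 h3]

end H17S
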