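import Pool.Agent.Lib.H17S.A.A3

set_option autoImplicit false

/-!
Chunk AA5 (M). The integrand of `alst`: joint continuity and local domination.

`aI p t` is the integrand of `alst` at `p = ((τ, P, N), n, V)`. `a5_cont`: on `DA ×ˢ Ici 0`: `ac_cont`, `lamX_cont` (MK) composed with `(p, t) ↦ ((P, N, nsq V), t)`, which maps `DA ×ˢ Ici 0` into `Om3 ×ˢ Ici 0` and is continuous
(`aa_nsq_cont`); `aC n (B τ t n)` and `qC n (B τ t n) V` are finite sums of products of the continuous functions `jm n i j` (`aa_jm_cont`), `V i`, `cr n V i = ∑ jm n i k V k`, `B τ t n i j` (`hB.cont` composed with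
`(p, t) ↦ (τ, t, n) ∈ Icc 0 1 ×ˢ Ici 0 ×ˢ univ`).
`a5_dom`: let `p₀ = ((τ₀,P₀,N₀),n₀,V₀) ∈ DA`. `Om3` is open (`Om3_open`, MB), so there is a compact neighbourhood `K ⊆ Om3` of `(P₀, N₀, nsq V₀)` (`exists_compact_subset`, or a closed ball); `lam_bdd` gives `D` for `K`. For `q` near `p₀` (within `DA`) the parameters
are in `K` and `|V i| ≤ A := ‖V₀‖ + 1`. By `aC_frame`, `qC_frame` the integrand is `conj ac * aC(M) - lamX * (∑∑ mQ(M) V V - nsq V conj (aC M) - t (n.V)^2)` with `|M i j| ≤ C` (`hB.bd`), so its norm is at most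
`D/(1+t)^3 * 6 C + D/(1+t)^4 * (9 * 4 C * A^2 + 3 A^2 * 6 C + t * (3 A)^2) ≤ D'/(1+t)^2` with `D' = D * (6 C + 54 C A^2 + 9 A^2)` (`|n i| ≤ 1`, `t ≤ 1 + t`).
-/

open MeasureTheory Filter Topology Set
open scoped ContDiff ComplexConjugate

namespace H17S

open NullPen (E3 S2 sm proj)

variable {B : ℝ → ℝ → S2 → Fin 3 → Fin 3 → ℝ} {C : ℝ}

/-- The integrand of `alst`. -/
noncomputable def aI (B : ℝ → ℝ → S2 → Fin 3 → Fin 3 → ℝ) (p : (ℝ × ℝ × ℝ) × S2 × (Fin 3 → ℝ)) (t : ℝ) : ℂ :=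
  conj ((mo p.1.2.1 p.1.2.2 (nsq p.2.2)).ac t) * (aC p.2.1 (B p.1.1 t p.2.1) - (t : ℂ)) -
    (mo p.1.2.1 p.1.2.2 (nsq p.2.2)).lamX t * qC p.2.1 (B p.1.1 t p.2.1) p.2.2

theorem aa5_map : ContinuousOn (fun q : ((ℝ × ℝ × ℝ) × S2 × (Fin 3 → ℝ)) × ℝ => (((q.1.1.2.1, q.1.1.2.2, nsq q.1.2.2), q.2) : (ℝ × ℝ × ℝ) × ℝ))
    (DA ×ˢ Ici 0) := by
  have h := aa_nsq_cont
  exact Continuous.continuousOn (by fun_prop)

theorem aa5_mem {q : ((ℝ × ℝ × ℝ) × S2 × (Fin 3 → ℝ)) × ℝ} (hq : q ∈ DA ×ˢ Ici (0 : ℝ)) :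
    (((q.1.1.2.1, q.1.1.2.2, nsq q.1.2.2), q.2) : (ℝ × ℝ × ℝ) × ℝ) ∈ Om3 ×ˢ Ici (0 : ℝ) :=
  ⟨⟨hq.1.2.1, hq.1.2.2⟩, hq.2⟩

theorem aa5_b (hB : Fam B C) (i j : Fin 3) :
    ContinuousOn (fun q : ((ℝ × ℝ × ℝ) × S2 × (Fin 3 → ℝ)) × ℝ => B q.1.1.1 q.2 q.1.2.1 i j) (DA ×ˢ Ici 0) :=
  (hB.cont i j).comp (f := fun q : ((ℝ × ℝ × ℝ) × S2 × (Fin 3 → ℝ)) × ℝ => ((q.1.1.1, q.2, q.1.2.1) : ℝ × ℝ × S2)) (by fun_prop)
    fun q hq => ⟨hq.1.1, hq.2, mem_univ _⟩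

theorem aa5_jm (i j : Fin 3) : Continuous (fun q : ((ℝ × ℝ × ℝ) × S2 × (Fin 3 → ℝ)) × ℝ => jm (q.1.2.1 : E3) i j) :=
  (aa_jm_cont i j).comp (continuous_subtype_val.comp (by fun_prop))

theorem aa5_aC (hB : Fam B C) :
    ContinuousOn (fun q : ((ℝ × ℝ × ℝ) × S2 × (Fin 3 → ℝ)) × ℝ => aC (q.1.2.1 : E3) (B q.1.1.1 q.2 q.1.2.1)) (DA ×ˢ Ici 0) := by
  unfold aC
  refine ContinuousOn.div_const (ContinuousOn.add ?_ (ContinuousOn.mul ?_ continuousOn_const)) _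
  · exact Complex.continuous_ofReal.comp_continuousOn (continuousOn_finsetSum _ fun i _ => aa5_b hB i i)
  · exact Complex.continuous_ofReal.comp_continuousOn (continuousOn_finsetSum _ fun i _ => continuousOn_finsetSum _ fun j _ =>
      (aa5_jm i j).continuousOn.mul (aa5_b hB i j))

theorem aa5_V (i : Fin 3) : Continuous (fun q : ((ℝ × ℝ × ℝ) × S2 × (Fin 3 → ℝ)) × ℝ => q.1.2.2 i) := by fun_prop

theorem aa5_qC (hB : Fam B C) :
    ContinuousOn (fun q : ((ℝ × ℝ × ℝ) × S2 × (Fin 3 → ℝ)) × ℝ => qC (q.1.2.1 : E3) (B q.1.1.1 q.2 q.1.2.1) q.1.2.2) (DA ×ˢ Ici 0) := by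
  unfold qC
  refine ContinuousOn.sub (ContinuousOn.sub ?_ (ContinuousOn.mul ?_ continuousOn_const)) (ContinuousOn.mul ?_ ?_)
  · exact Complex.continuous_ofReal.comp_continuousOn (continuousOn_finsetSum _ fun i _ => continuousOn_finsetSum _ fun j _ =>
      ((aa5_V i).continuousOn.mul (aa5_b hB i j)).mul (aa5_V j).continuousOn)
  · refine Complex.continuous_ofReal.comp_continuousOn (continuousOn_finsetSum _ fun i _ => continuousOn_finsetSum _ fun j _ =>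
      (ContinuousOn.mul ?_ (aa5_b hB i j)).mul (aa5_V j).continuousOn)
    simp only [cr_jm]
    exact (continuous_finsetSum _ fun k _ => (aa5_jm i k).mul (aa5_V k)).continuousOn
  · exact (Complex.continuous_ofReal.comp (aa_nsq_cont.comp (by fun_prop))).continuousOn
  · exact Complex.continuous_conj.comp_continuousOn (aa5_aC hB)

theorem a5_cont (hB : Fam B C) :
    ContinuousOn (fun q : ((ℝ × ℝ × ℝ) × S2 × (Fin 3 → ℝ)) × ℝ => aI B q.1 q.2) (DA ×ˢ Ici 0) := by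
  unfold aI
  have h1 : ContinuousOn (fun q : ((ℝ × ℝ × ℝ) × S2 × (Fin 3 → ℝ)) × ℝ => (mo q.1.1.2.1 q.1.1.2.2 (nsq q.1.2.2)).ac q.2) (DA ×ˢ Ici 0) :=
    ContinuousOn.comp (g := fun p : (ℝ × ℝ × ℝ) × ℝ => (mo p.1.1 p.1.2.1 p.1.2.2).ac p.2)
      (f := fun q : ((ℝ × ℝ × ℝ) × S2 × (Fin 3 → ℝ)) × ℝ => (((q.1.1.2.1, q.1.1.2.2, nsq q.1.2.2), q.2) : (ℝ × ℝ × ℝ) × ℝ))
      (t := Om3 ×ˢ Ici (0 : ℝ)) ac_cont aa5_map fun q hq => aa5_mem hq
  have h2 : ContinuousOn (fun q : ((ℝ × ℝ × ℝ) × S2 × (Fin 3 → ℝ)) × ℝ => (mo q.1.1.2.1 q.1.1.2.2 (nsq q.1.2.2)).lamX q.2) (DA ×ˢ Ici 0) :=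
    ContinuousOn.comp (g := fun p : (ℝ × ℝ × ℝ) × ℝ => (mo p.1.1 p.1.2.1 p.1.2.2).lamX p.2)
      (f := fun q : ((ℝ × ℝ × ℝ) × S2 × (Fin 3 → ℝ)) × ℝ => (((q.1.1.2.1, q.1.1.2.2, nsq q.1.2.2), q.2) : (ℝ × ℝ × ℝ) × ℝ))
      (t := Om3 ×ˢ Ici (0 : ℝ)) lamX_cont aa5_map fun q hq => aa5_mem hq
  refine ContinuousOn.sub (ContinuousOn.mul (Complex.continuous_conj.comp_continuousOn h1) (ContinuousOn.sub (aa5_aC hB) ?_))
    (h2.mul (aa5_qC hB))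
  exact (Complex.continuous_ofReal.comp continuous_snd).continuousOn

theorem aa5_qbd {n : S2} {M : Fin 3 → Fin 3 → ℝ} {t C A : ℝ} (hC : 0 ≤ C) (ht : 0 ≤ t) (hM : ∀ i j, |M i j - t * proj n i j| ≤ C) {V : Fin 3 → ℝ}
    (hV : ∀ i, |V i| ≤ A) : ‖qC n M V‖ ≤ 54 * C * A ^ 2 + 9 * A ^ 2 * t := by
  have hA : 0 ≤ A := (abs_nonneg _).trans (hV 0)
  rw [qC_frame n M t V]
  have h1 : ‖∑ k, ∑ j, mQ n (fun i j => M i j - t * proj n i j) k j * ((V k * V j : ℝ) : ℂ)‖ ≤ 36 * C * A ^ 2 := by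
    have h2 : ∀ k j : Fin 3, ‖mQ n (fun i j => M i j - t * proj n i j) k j * ((V k * V j : ℝ) : ℂ)‖ ≤ 4 * C * A ^ 2 := by
      intro k j
      rw [norm_mul, Complex.norm_real, Real.norm_eq_abs, abs_mul]
      have h3 := mQ_bd n hM k j
      have h4 : |V k| * |V j| ≤ A * A := mul_le_mul (hV k) (hV j) (abs_nonneg _) hA
      calc ‖mQ n (fun i j => M i j - t * proj n i j) k j‖ * (|V k| * |V j|) ≤ (4 * C) * (A * A) :=
            mul_le_mul h3 h4 (by positivity) (by positivity)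
        _ = 4 * C * A ^ 2 := by ring
    refine (norm_sum_le _ _).trans ?_
    refine (Finset.sum_le_sum fun k _ => (norm_sum_le _ _).trans (Finset.sum_le_sum fun j _ => h2 k j)).trans (le_of_eq ?_)
    simp only [Finset.sum_const, Finset.card_univ, Fintype.card_fin, nsmul_eq_mul]
    push_cast
    ring
  have h5 : nsq V ≤ 3 * A ^ 2 := by
    unfold nsq
    have h50 : ∀ i ∈ (Finset.univ : Finset (Fin 3)), V i ^ 2 ≤ A ^ 2 := by
      intro i _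
      rw [← sq_abs]
      exact pow_le_pow_left₀ (abs_nonneg _) (hV i) 2
    refine (Finset.sum_le_sum h50).trans (le_of_eq ?_)
    simp
  have h6 : ‖(nsq V : ℂ) * conj (aC n (fun i j => M i j - t * proj n i j))‖ ≤ 18 * C * A ^ 2 := by
    rw [norm_mul, Complex.norm_real, Real.norm_of_nonneg (aa_nsq_nonneg V), Complex.norm_conj]
    have h7 := aC_bd n hM
    calc nsq V * ‖aC n (fun i j => M i j - t * proj n i j)‖ ≤ (3 * A ^ 2) * (6 * C) := mul_le_mul h5 h7 (norm_nonneg _) (by positivity)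
      _ = 18 * C * A ^ 2 := by ring
  have h8 : ‖((t * (∑ i, (n : E3) i * V i) ^ 2 : ℝ) : ℂ)‖ ≤ 9 * A ^ 2 * t := by
    rw [Complex.norm_real, Real.norm_of_nonneg (by positivity)]
    have h9 : |∑ i, (n : E3) i * V i| ≤ 3 * A := by
      refine (Finset.abs_sum_le_sum_abs _ _).trans ?_
      have h90 : ∀ i ∈ (Finset.univ : Finset (Fin 3)), |(n : E3) i * V i| ≤ A := by
        intro i _
        rw [abs_mul]
        have h10 : |(n : E3) i| ≤ 1 := by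
          have h11 := PiLp.norm_apply_le (n : E3) i
          have h12 : ‖(n : E3)‖ = 1 := by
            have := n.2
            simpa using this
          rw [Real.norm_eq_abs, h12] at h11
          exact h11
        have h13 := mul_le_mul h10 (hV i) (abs_nonneg _) zero_le_one
        linarith
      refine (Finset.sum_le_sum h90).trans (le_of_eq ?_)
      simp
    have h14 : (∑ i, (n : E3) i * V i) ^ 2 ≤ (3 * A) ^ 2 := by
      rw [← sq_abs]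
      exact pow_le_pow_left₀ (abs_nonneg _) h9 2
    nlinarith [mul_le_mul_of_nonneg_left h14 ht]
  refine (norm_sub_le _ _).trans ?_
  have h15 := norm_sub_le (∑ k, ∑ j, mQ n (fun i j => M i j - t * proj n i j) k j * ((V k * V j : ℝ) : ℂ))
    ((nsq V : ℂ) * conj (aC n (fun i j => M i j - t * proj n i j)))
  linarith

theorem aa5_num {D C A t : ℝ} (hD : 0 ≤ D) (hC : 0 ≤ C) (ht : 0 ≤ t) :
    D / (1 + t) ^ 3 * (6 * C) + D / (1 + t) ^ 4 * (54 * C * A ^ 2 + 9 * A ^ 2 * t) ≤ D * (6 * C + 54 * C * A ^ 2 + 9 * A ^ 2) / (1 + t) ^ 2 := by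
  have hu : 0 < 1 + t := by linarith
  have e1 : D / (1 + t) ^ 3 * (6 * C) ≤ D * (6 * C) / (1 + t) ^ 2 := by
    rw [div_mul_eq_mul_div]
    apply div_le_div_of_nonneg_left (by positivity) (by positivity)
    exact pow_le_pow_right₀ (by linarith) (by norm_num)
  have e2 : D / (1 + t) ^ 4 * (54 * C * A ^ 2 + 9 * A ^ 2 * t) ≤ D * (54 * C * A ^ 2 + 9 * A ^ 2) / (1 + t) ^ 2 := by
    have e3 : 54 * C * A ^ 2 + 9 * A ^ 2 * t ≤ (54 * C * A ^ 2 + 9 * A ^ 2) * (1 + t) ^ 2 := by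
      have e4 : 0 ≤ 54 * C * A ^ 2 := by positivity
      have e5 : 0 ≤ 9 * A ^ 2 := by positivity
      nlinarith [mul_nonneg e4 ht, mul_nonneg e5 ht, mul_nonneg e4 (sq_nonneg t), mul_nonneg e5 (sq_nonneg t)]
    have e6 := mul_le_mul_of_nonneg_left e3 (by positivity : 0 ≤ D / (1 + t) ^ 4)
    refine e6.trans (le_of_eq ?_)
    field_simp
  have e7 : D * (6 * C + 54 * C * A ^ 2 + 9 * A ^ 2) / (1 + t) ^ 2 =
      D * (6 * C) / (1 + t) ^ 2 + D * (54 * C * A ^ 2 + 9 * A ^ 2) / (1 + t) ^ 2 := by ring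
  rw [e7]
  exact add_le_add e1 e2

theorem a5_dom (hB : Fam B C) {p : (ℝ × ℝ × ℝ) × S2 × (Fin 3 → ℝ)} (hp : p ∈ DA) :
    ∃ D, ∀ᶠ q in 𝓝[DA] p, ∀ t, 0 ≤ t → ‖aI B q t‖ ≤ D / (1 + t) ^ 2 := by
  have hC := hB.C_nonneg
  have hp3 : ((p.1.2.1, p.1.2.2, nsq p.2.2) : ℝ × ℝ × ℝ) ∈ Om3 := ⟨hp.2.1, hp.2.2⟩
  obtain ⟨K, hK, hpK, hKO⟩ := exists_compact_subset Om3_open hp3
  obtain ⟨D, hD, hb⟩ := lam_bdd hK hKO
  refine ⟨D * (6 * C + 54 * C * (‖p.2.2‖ + 1) ^ 2 + 9 * (‖p.2.2‖ + 1) ^ 2), ?_⟩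
  have hm : Continuous (fun q : (ℝ × ℝ × ℝ) × S2 × (Fin 3 → ℝ) => ((q.1.2.1, q.1.2.2, nsq q.2.2) : ℝ × ℝ × ℝ)) := by
    have h := aa_nsq_cont
    fun_prop
  have h1 : ∀ᶠ q in 𝓝[DA] p, ((q.1.2.1, q.1.2.2, nsq q.2.2) : ℝ × ℝ × ℝ) ∈ K :=
    nhdsWithin_le_nhds (hm.continuousAt.preimage_mem_nhds (mem_interior_iff_mem_nhds.1 hpK))
  have h2 : ∀ᶠ q in 𝓝[DA] p, ‖q.2.2‖ < ‖p.2.2‖ + 1 := by
    have hc : Continuous (fun q : (ℝ × ℝ × ℝ) × S2 × (Fin 3 → ℝ) => ‖q.2.2‖) := by fun_prop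
    exact nhdsWithin_le_nhds (hc.continuousAt.eventually_lt continuousAt_const (by linarith))
  filter_upwards [h1, h2, self_mem_nhdsWithin] with q hq1 hq2 hq3 t ht
  have hV : ∀ i, |q.2.2 i| ≤ ‖p.2.2‖ + 1 := fun i => by
    have h3 := norm_le_pi_norm q.2.2 i
    rw [Real.norm_eq_abs] at h3
    linarith
  obtain ⟨-, -, hX, hA⟩ := hb _ hq1 t ht
  have hM : ∀ i j, |B q.1.1 t q.2.1 i j - t * proj q.2.1 i j| ≤ C := fun i j => hB.bd q.1.1 hq3.1 t ht q.2.1 i j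
  unfold aI
  refine (norm_sub_le _ _).trans ?_
  rw [norm_mul, norm_mul, Complex.norm_conj, aC_frame]
  have h4 := aC_bd q.2.1 hM
  have h5 := aa5_qbd hC ht hM hV
  refine (add_le_add (mul_le_mul hA h4 (norm_nonneg _) (by positivity)) (mul_le_mul hX h5 (norm_nonneg _) (by positivity))).trans ?_
  exact aa5_num hD hC ht

end H17S
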