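import Pool.Agent.Lib.H17S.A.A6

set_option autoImplicit false

/-!
Chunk AA7 (M). Compactness: `alt` is bounded and close to `alst` just above the cut-off level.

`KA b p1 p2 := {((τ,P,N),n,V) | τ ∈ [0,1], (P,N) ∈ Rec p1 p2, nsq V ≤ b * Xc P N}` for `0 < b < 1`. `KA_comp`: closed (`Xc_cont` on `{P > 0}`; e.g. the set is the image/preimage in the compact set `(Icc 0 1 ×ˢ Rec) ×ˢ univ ×ˢ closedBall 0 R` of the closed condition
`nsq V - b * Xc P N ≤ 0` for a function continuous on this compact set: `ContinuousOn.preimage_isClosed_of_isClosed`, `IsCompact.of_isClosed_subset`), bounded since `Xc ≤ M` on the compact `Rec p1 p2`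
(`IsCompact.exists_bound_of_continuousOn`, `Xc_cont`, MB) and `|V i|^2 ≤ nsq V`. `KA ⊆ DA` (`KA_sub`).
`alt_bd`: `alt` at `V` is `alst` at `V' = cutV ..`, and `((τ,P,N),n,V') ∈ KA (1 - k)` (`nsq_cutV`); `alst` is bounded on this compact set (`alst_cont`).
`alt_near`: let `b = 1 - k/2`. First `θ₁ = (k/2) * min Xc > 0` on `Rec` (`Xc_pos`, `Xc_cont`, compactness): `nsq V ≤ (1-k) Xc + θ₁` implies `nsq V ≤ b Xc < Xc`. The function
`G p := ‖alst .. V - alt .. V‖` is continuous on the compact `KA b` (`alst_cont`, `alt_cont`). The set `{p ∈ KA b | η ≤ G p}` is compact; if it is empty take `θ = θ₁`. Otherwise the continuous function `nsq V - (1 - k) Xc P N` has a minimum `μ` on it, and `μ > 0` since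
`G = 0` when `nsq V ≤ (1 - k) Xc` (`cutV_le`). Take `θ = min θ₁ (μ/2)`. (`Rec` may be empty: then take `θ = 1`, or use `Rec` nonempty only where needed.)
-/

open MeasureTheory Filter Topology Set
open scoped ContDiff ComplexConjugate

namespace H17S

open NullPen (E3 S2 sm proj)

variable {B : ℝ → ℝ → S2 → Fin 3 → Fin 3 → ℝ} {C : ℝ}

/-- The compact set of parameters. -/
def KA (b p1 p2 : ℝ) : Set ((ℝ × ℝ × ℝ) × S2 × (Fin 3 → ℝ)) :=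
  {p | p.1.1 ∈ Icc (0 : ℝ) 1 ∧ (p.1.2.1, p.1.2.2) ∈ Rec p1 p2 ∧ nsq p.2.2 ≤ b * Xc p.1.2.1 p.1.2.2}

theorem aa7_rec (p1 p2 : ℝ) : IsCompact (Rec p1 p2) := isCompact_Icc.prod isCompact_Icc

theorem aa7_pos {p1 p2 P N : ℝ} (h1 : 0 < p1) (h : (P, N) ∈ Rec p1 p2) : 0 < P := lt_of_lt_of_le h1 h.1.1

theorem aa7_xc {p1 p2 : ℝ} (h1 : 0 < p1) : ContinuousOn (fun p : ℝ × ℝ => Xc p.1 p.2) (Rec p1 p2) :=
  Xc_cont.mono fun p hp => aa7_pos (P := p.1) (N := p.2) h1 hp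

theorem KA_comp {b p1 p2 : ℝ} (h1 : 0 < p1) : IsCompact (KA b p1 p2) := by
  obtain ⟨M, hM⟩ := (aa7_rec p1 p2).exists_bound_of_continuousOn (aa7_xc h1)
  obtain ⟨R, hR⟩ : ∃ R, R = |b| * |M| + 1 := ⟨_, rfl⟩
  have hR1 : 1 ≤ R := by
    rw [hR]
    have : 0 ≤ |b| * |M| := by positivity
    linarith
  set T : Set ((ℝ × ℝ × ℝ) × S2 × (Fin 3 → ℝ)) :=
    (Icc (0 : ℝ) 1 ×ˢ Rec p1 p2) ×ˢ (univ : Set S2) ×ˢ Metric.closedBall (0 : Fin 3 → ℝ) R with hT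
  have hTc : IsCompact T :=
    (isCompact_Icc.prod (aa7_rec p1 p2)).prod (isCompact_univ.prod (isCompact_closedBall _ _))
  have hf : ContinuousOn (fun p : (ℝ × ℝ × ℝ) × S2 × (Fin 3 → ℝ) => nsq p.2.2 - b * Xc p.1.2.1 p.1.2.2) T := by
    refine ContinuousOn.sub (aa_nsq_cont.comp (continuous_snd.comp continuous_snd)).continuousOn
      (ContinuousOn.mul continuousOn_const ?_)
    exact (aa7_xc h1).comp (f := fun p : (ℝ × ℝ × ℝ) × S2 × (Fin 3 → ℝ) => (p.1.2.1, p.1.2.2)) (by fun_prop)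
      (fun p hp => hp.1.2)
  have hc := hf.preimage_isClosed_of_isClosed hTc.isClosed (isClosed_Iic (a := (0 : ℝ)))
  have he : KA b p1 p2 = T ∩ (fun p : (ℝ × ℝ × ℝ) × S2 × (Fin 3 → ℝ) => nsq p.2.2 - b * Xc p.1.2.1 p.1.2.2) ⁻¹' Iic 0 := by
    ext p
    constructor
    · rintro ⟨a1, a2, a3⟩
      refine ⟨⟨⟨a1, a2⟩, mem_univ _, ?_⟩, ?_⟩
      · rw [mem_closedBall_zero_iff, pi_norm_le_iff_of_nonneg (by linarith)]
        intro i
        rw [Real.norm_eq_abs]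
        have h2 : p.2.2 i ^ 2 ≤ nsq p.2.2 :=
          Finset.single_le_sum (f := fun i => p.2.2 i ^ 2) (fun i _ => sq_nonneg _) (Finset.mem_univ i)
        have h3 : b * Xc p.1.2.1 p.1.2.2 ≤ |b| * |M| := by
          have h4 := hM (p.1.2.1, p.1.2.2) a2
          rw [Real.norm_eq_abs] at h4
          calc b * Xc p.1.2.1 p.1.2.2 ≤ |b * Xc p.1.2.1 p.1.2.2| := le_abs_self _
            _ = |b| * |Xc p.1.2.1 p.1.2.2| := abs_mul _ _
            _ ≤ |b| * |M| := mul_le_mul_of_nonneg_left (h4.trans (le_abs_self M)) (abs_nonneg b)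
        exact abs_le_of_sq_le_sq (by nlinarith) (by linarith)
      · change nsq p.2.2 - b * Xc p.1.2.1 p.1.2.2 ≤ 0
        linarith
    · rintro ⟨⟨⟨a1, a2⟩, -⟩, a3⟩
      refine ⟨a1, a2, ?_⟩
      change nsq p.2.2 - b * Xc p.1.2.1 p.1.2.2 ≤ 0 at a3
      linarith
  rw [he]
  exact hTc.of_isClosed_subset hc inter_subset_left

theorem KA_sub {b p1 p2 : ℝ} (h1 : 0 < p1) (hb : b < 1) : KA b p1 p2 ⊆ DA := by
  rintro p ⟨a1, a2, a3⟩
  have hP := aa7_pos h1 a2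
  refine ⟨a1, hP, ?_⟩
  have h2 := Xc_pos p.1.2.2 hP
  nlinarith

theorem Xc_min {p1 p2 : ℝ} (h1 : 0 < p1) : ∃ c : ℝ, 0 < c ∧ ∀ P N : ℝ, (P, N) ∈ Rec p1 p2 → c ≤ Xc P N := by
  rcases (Rec p1 p2).eq_empty_or_nonempty with h | h
  · exact ⟨1, one_pos, fun P N hPN => by rw [h] at hPN; exact hPN.elim⟩
  · obtain ⟨q, hq, hq2⟩ := (aa7_rec p1 p2).exists_isMinOn h (aa7_xc h1)
    exact ⟨Xc q.1 q.2, Xc_pos q.2 (aa7_pos (P := q.1) (N := q.2) h1 hq), fun P N hPN => isMinOn_iff.1 hq2 (P, N) hPN⟩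

theorem aa7_cut {k p1 p2 : ℝ} (hk : k ∈ Ioo (0 : ℝ) 1) (h1 : 0 < p1) {τ : ℝ} (hτ : τ ∈ Icc (0 : ℝ) 1) {P N : ℝ}
    (h : (P, N) ∈ Rec p1 p2) (n : S2) (V : Fin 3 → ℝ) : ((τ, P, N), n, cutV P N k V) ∈ KA (1 - k) p1 p2 := by
  refine ⟨hτ, h, ?_⟩
  change nsq (cutV P N k V) ≤ (1 - k) * Xc P N
  rw [nsq_cutV (aa7_pos h1 h) hk.2]
  exact min_le_right _ _

theorem alt_bd (hB : Fam B C) {k : ℝ} (hk : k ∈ Ioo (0 : ℝ) 1) {p1 p2 : ℝ} (h1 : 0 < p1) :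
    ∃ M, 0 < M ∧ ∀ τ ∈ Icc (0 : ℝ) 1, ∀ P N : ℝ, (P, N) ∈ Rec p1 p2 → ∀ (n : S2) (V : Fin 3 → ℝ), ‖alt B k τ P N n V‖ ≤ M := by
  have hk1 : 1 - k < 1 := by linarith [hk.1]
  obtain ⟨M, hM⟩ := (KA_comp (b := 1 - k) (p2 := p2) h1).exists_bound_of_continuousOn
    ((alst_cont hB).mono (KA_sub h1 hk1))
  refine ⟨|M| + 1, by positivity, fun τ hτ P N hPN n V => ?_⟩
  have h2 := hM _ (aa7_cut hk h1 hτ hPN n V)
  have h3 := le_abs_self M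
  unfold alt
  linarith

theorem alt_near (hB : Fam B C) {k : ℝ} (hk : k ∈ Ioo (0 : ℝ) 1) {p1 p2 : ℝ} (h1 : 0 < p1) {η : ℝ} (hη : 0 < η) :
    ∃ θ, 0 < θ ∧ ∀ τ ∈ Icc (0 : ℝ) 1, ∀ P N : ℝ, (P, N) ∈ Rec p1 p2 → ∀ (n : S2) (V : Fin 3 → ℝ), nsq V ≤ (1 - k) * Xc P N + θ →
      nsq V < Xc P N ∧ ‖alst P N (fun s => B τ s n) n V - alt B k τ P N n V‖ ≤ η := by
  obtain ⟨c, hc, hcX⟩ := Xc_min (p2 := p2) h1
  have hk0 := hk.1
  have hb : 1 - k / 2 < 1 := by linarith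
  obtain ⟨G, hG⟩ : ∃ G : (ℝ × ℝ × ℝ) × S2 × (Fin 3 → ℝ) → ℝ, G = fun p =>
    ‖alst p.1.2.1 p.1.2.2 (fun s => B p.1.1 s p.2.1) p.2.1 p.2.2 - alt B k p.1.1 p.1.2.1 p.1.2.2 p.2.1 p.2.2‖ := ⟨_, rfl⟩
  have hGc : ContinuousOn G (KA (1 - k / 2) p1 p2) := by
    rw [hG]
    refine ContinuousOn.norm (ContinuousOn.sub ((alst_cont hB).mono (KA_sub h1 hb)) ?_)
    exact (alt_cont hB hk).mono fun p hp => ⟨⟨hp.1, aa7_pos h1 hp.2.1, mem_univ _⟩, mem_univ _⟩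
  have hKc := KA_comp (b := 1 - k / 2) (p2 := p2) h1
  have hSc : IsCompact (KA (1 - k / 2) p1 p2 ∩ G ⁻¹' Ici η) :=
    hKc.of_isClosed_subset (hGc.preimage_isClosed_of_isClosed hKc.isClosed isClosed_Ici) inter_subset_left
  have hD : ContinuousOn (fun p : (ℝ × ℝ × ℝ) × S2 × (Fin 3 → ℝ) => nsq p.2.2 - (1 - k) * Xc p.1.2.1 p.1.2.2)
      (KA (1 - k / 2) p1 p2 ∩ G ⁻¹' Ici η) := by
    refine ContinuousOn.sub (aa_nsq_cont.comp (continuous_snd.comp continuous_snd)).continuousOn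
      (ContinuousOn.mul continuousOn_const ?_)
    exact (aa7_xc h1).comp (f := fun p : (ℝ × ℝ × ℝ) × S2 × (Fin 3 → ℝ) => (p.1.2.1, p.1.2.2)) (by fun_prop)
      (fun p hp => hp.1.2.1)
  have hpos : ∃ μ : ℝ, 0 < μ ∧ ∀ p ∈ KA (1 - k / 2) p1 p2 ∩ G ⁻¹' Ici η,
      μ ≤ nsq p.2.2 - (1 - k) * Xc p.1.2.1 p.1.2.2 := by
    rcases (KA (1 - k / 2) p1 p2 ∩ G ⁻¹' Ici η).eq_empty_or_nonempty with h | h
    · exact ⟨1, one_pos, fun p hp => by rw [h] at hp; exact hp.elim⟩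
    · obtain ⟨q, hq, hq2⟩ := hSc.exists_isMinOn h hD
      refine ⟨nsq q.2.2 - (1 - k) * Xc q.1.2.1 q.1.2.2, ?_, fun p hp => isMinOn_iff.1 hq2 p hp⟩
      by_contra hn
      push Not at hn
      have h3 : nsq q.2.2 ≤ (1 - k) * Xc q.1.2.1 q.1.2.2 := by linarith
      have h4 : cutV q.1.2.1 q.1.2.2 k q.2.2 = q.2.2 := cutV_le (aa7_pos h1 hq.1.2.1) hk.2 h3
      have h5 : η ≤ G q := hq.2
      rw [hG] at h5
      unfold alt at h5
      simp only [h4, sub_self, norm_zero] at h5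
      linarith
  obtain ⟨μ, hμ, hμ2⟩ := hpos
  refine ⟨min (k / 2 * c) (μ / 2), lt_min (by positivity) (by positivity), fun τ hτ P N hPN n V hV => ?_⟩
  have hXc := hcX P N hPN
  have hXp := Xc_pos N (aa7_pos h1 hPN)
  have h6 : nsq V ≤ (1 - k / 2) * Xc P N := by
    have h7 := min_le_left (k / 2 * c) (μ / 2)
    have h8 : k / 2 * c ≤ k / 2 * Xc P N := mul_le_mul_of_nonneg_left hXc (by linarith)
    nlinarith
  have h9 : ((τ, P, N), n, V) ∈ KA (1 - k / 2) p1 p2 := ⟨hτ, hPN, h6⟩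
  refine ⟨(KA_sub h1 hb h9).2.2, ?_⟩
  by_contra hn
  push Not at hn
  have h10 : ((τ, P, N), n, V) ∈ KA (1 - k / 2) p1 p2 ∩ G ⁻¹' Ici η := by
    refine ⟨h9, ?_⟩
    change η ≤ G ((τ, P, N), n, V)
    rw [hG]
    exact hn.le
  have h11 := hμ2 _ h10
  have h12 := min_le_right (k / 2 * c) (μ / 2)
  change μ ≤ nsq V - (1 - k) * Xc P N at h11
  linarith

end H17S
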