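import Pool.Agent.Lib.H17S.A.A4
import Pool.Agent.Lib.H17S.A.A6
import Pool.Agent.Lib.H17S.MP
import Pool.Agent.Lib.H17S.MI

set_option autoImplicit false

/-!
Chunk AA8 (S/M). The case `τ = 0`.

`alst_form` with the frames `B 0 s n` and `V' = cutV P N k V` (tangent by `cutV_tan`, `nsq V' = min .. < Xc` by `nsq_cutV`): `MT (B 0 · n) n t i j = proj n i j` for `t ≥ 0` (`hB.zero`), `aC n (proj n) = 1` (`aC_frame` with `M = t proj`, or directly), and
`∑_kj mQ n (proj n) k j V'_k V'_j = nsq V'` (from `qC_frame`, or directly: `V'` tangent). Easier: use the definition of `alst`: for `t > 0` the integrand is `conj ac * (aC n ((1+t) proj) - t) - lamX * qC n ((1+t) proj) V' = conj ac * 1 - lamX * 0`: `aC n ((1+t) proj) - t = 1` (`aC_frame` with this `t`: the matrix is `proj`),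
`qC n ((1+t) proj) V' = 0` for tangent `V'` (`∑ V_i proj_ij V_j = nsq V`, `∑ (n×V)_i proj_ij V_j = 0`, `aC n ((1+t) proj) = 1 + t`). So the integral is `∫ conj (ac t) = - ν / 4 = - num / 4` (`ac_int0` (MP) for `mo_ok` (MI), `mo_ν`), and `- 4 / num * (- num / 4) = 1` (`num_pos`).
-/

open MeasureTheory Filter Topology Set
open scoped ContDiff ComplexConjugate

namespace H17S

open NullPen (E3 S2 sm proj)

variable {B : ℝ → ℝ → S2 → Fin 3 → Fin 3 → ℝ} {C : ℝ}

theorem aa8_s1 : (0 : Fin 3) + 1 = 1 := rfl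
theorem aa8_s2 : (0 : Fin 3) + 2 = 2 := rfl
theorem aa8_s3 : (1 : Fin 3) + 1 = 2 := rfl
theorem aa8_s4 : (1 : Fin 3) + 2 = 0 := rfl
theorem aa8_s5 : (2 : Fin 3) + 1 = 0 := rfl
theorem aa8_s6 : (2 : Fin 3) + 2 = 1 := rfl

theorem aa8_n1 : ((0 : Fin 3) = 1) = False := by simp
theorem aa8_n2 : ((0 : Fin 3) = 2) = False := by simp
theorem aa8_n3 : ((1 : Fin 3) = 0) = False := by simp
theorem aa8_n4 : ((1 : Fin 3) = 2) = False := by simp
theorem aa8_n5 : ((2 : Fin 3) = 0) = False := by simp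
theorem aa8_n6 : ((2 : Fin 3) = 1) = False := by simp

theorem aa8_aC (n : S2) (c : ℝ) : aC n (fun i j => c * proj n i j) = (c : ℂ) := by
  have hn := NullS.sq_S2 n
  have h1 : ∑ i, c * proj (n : E3) i i = 2 * c := by
    simp only [proj, Fin.sum_univ_three]
    norm_num
    linear_combination (-c) * hn
  have h2 : ∑ i, ∑ j, jm (n : E3) i j * (c * proj (n : E3) i j) = 0 := by
    simp only [jm, cr, NullU.crs, proj, Fin.sum_univ_three]
    simp only [aa8_s1, aa8_s2, aa8_s3, aa8_s4, aa8_s5, aa8_s6, aa8_n1, aa8_n2, aa8_n3, aa8_n4, aa8_n5, aa8_n6,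
      if_true, if_false]
    ring
  unfold aC
  rw [h1, h2]
  push_cast
  ring

theorem aa8_qC (n : S2) (c : ℝ) {V : Fin 3 → ℝ} (hV : ∑ i, (n : E3) i * V i = 0) :
    qC n (fun i j => c * proj n i j) V = 0 := by
  have h1 : ∑ i, ∑ j, V i * (c * proj (n : E3) i j) * V j = nsq V * c := by
    have : ∑ i, ∑ j, V i * (c * proj (n : E3) i j) * V j = nsq V * c - c * (∑ i, (n : E3) i * V i) ^ 2 := by
      simp only [proj, nsq, Fin.sum_univ_three, aa8_n1, aa8_n2, aa8_n3, aa8_n4, aa8_n5, aa8_n6, if_true, if_false]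
      ring
    rw [this, hV]
    ring
  have h2 : ∑ i, ∑ j, cr (n : E3) V i * (c * proj (n : E3) i j) * V j = 0 := by
    simp only [cr, NullU.crs, proj, Fin.sum_univ_three]
    simp only [aa8_s1, aa8_s2, aa8_s3, aa8_s4, aa8_s5, aa8_s6, aa8_n1, aa8_n2, aa8_n3, aa8_n4, aa8_n5, aa8_n6,
      if_true, if_false]
    ring
  unfold qC
  rw [h1, h2, aa8_aC, Complex.conj_ofReal]
  push_cast
  ring

theorem alt_zero (hB : Fam B C) {k : ℝ} (hk : k ∈ Ioo (0 : ℝ) 1) {P N : ℝ} (hP : 0 < P) (n : S2) {V : Fin 3 → ℝ}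
    (hV : ∑ i, (n : E3) i * V i = 0) :
    alt B k 0 P N n V = 1 - (betam P N (min (nsq V) ((1 - k) * Xc P N)) : ℂ) - (N : ℂ) * Complex.I := by
  have hX0 := aa_X1_pos (N := N) hP hk.2
  have hn1 := nsq_cutV (N := N) hP hk.2 V
  have hXc := Xc_pos N hP
  have ht : ∑ i, (n : E3) i * cutV P N k V i = 0 := cutV_tan hV
  have hx0 : 0 ≤ min (nsq V) ((1 - k) * Xc P N) := le_min (Finset.sum_nonneg fun i _ => sq_nonneg _) hX0.le
  have hx1 : min (nsq V) ((1 - k) * Xc P N) < Xc P N :=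
    lt_of_le_of_lt (min_le_right _ _) (by nlinarith [hk.1])
  unfold alt alst
  rw [hn1]
  generalize min (nsq V) ((1 - k) * Xc P N) = X at hx0 hx1 ⊢
  have hnum := num_pos (N := N) hP hx1
  have h1 : ∫ t in Ioi (0 : ℝ), (conj ((mo P N X).ac t) * (aC n (B 0 t n) - (t : ℂ)) -
      (mo P N X).lamX t * qC n (B 0 t n) (cutV P N k V)) = ∫ t in Ioi (0 : ℝ), conj ((mo P N X).ac t) := by
    refine setIntegral_congr_fun measurableSet_Ioi fun t ht' => ?_
    have h2 : B 0 t n = fun i j => (1 + t) * proj n i j := by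
      funext i j
      exact hB.zero t (le_of_lt ht') n i j
    show conj ((mo P N X).ac t) * (aC n (B 0 t n) - (t : ℂ)) -
      (mo P N X).lamX t * qC n (B 0 t n) (cutV P N k V) = conj ((mo P N X).ac t)
    rw [h2, aa8_aC, aa8_qC n (1 + t) ht]
    push_cast
    ring
  rw [h1]
  have h3 := ac_int0 (mo_ok hP hx0 hx1)
  rw [mo_ν] at h3
  have h4 : ∫ t in Ioi (0 : ℝ), conj ((mo P N X).ac t) = - (num P N X : ℂ) / 4 := by
    linear_combination (1 / 4) * h3
  rw [h4]
  have h5 : (num P N X : ℂ) ≠ 0 := by exact_mod_cast hnum.ne'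
  field_simp
  ring

end H17S
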