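import Pool.Agent.Lib.H17S.A.A7
import Pool.Agent.Lib.H17S.MN2
import Pool.Agent.Lib.H17S.MQ

set_option autoImplicit false

/-!
Chunk AA9 (S/M, many small). Outputs from module M on the rectangle `Rec p1 p2` (compact, contained in `{P > 0}`).

`num_bd`: `θ = (k/2) c` with `c` of `Xc_min`: then `X ≤ (1-k/2) Xc`. `num` is continuous on `Om3` (`num_cont`), hence bounded on the compact set `{(P,N,X) | (P,N) ∈ Rec, 0 ≤ X ≤ (1-k/2) Xc P N}` (compact as in `KA_comp`: or take `X = x * Xc P N` with `x ∈ Icc 0 (1-k/2)`: the continuous image of the compact set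
`Rec ×ˢ Icc 0 (1-k/2)` under `(P,N,x) ↦ (P,N,x * Xc P N)`); nonnegative by `num_pos`. `beta_le`: `betam_le` (MJ). `betam_min`: `betam_anti` (MQ) on `Iio (Xc P N)` and `betam_zero`/`betam_le`.
`betam_blow`: `blow_up'` (MN2) for `K = Rec p1 p2`; it gives `k₀ ≤ 1/2`; take `k0 = k₀ / 2`. `betam_X1_bd`: `(P,N) ↦ betam P N ((1-k) Xc P N)` is continuous on `Rec` (`betam_cont`, `Xc_cont`), bounded. `Xc_bd`: `Xc_min` and an upper bound by continuity.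
-/

open MeasureTheory Filter Topology Set
open scoped ContDiff ComplexConjugate

namespace H17S

open NullPen (E3 S2 sm proj)

theorem Rec_comp (p1 p2 : ℝ) : IsCompact (Rec p1 p2) := isCompact_Icc.prod isCompact_Icc

theorem aa9_pos {p1 p2 P N : ℝ} (h1 : 0 < p1) (h : (P, N) ∈ Rec p1 p2) : 0 < P := lt_of_lt_of_le h1 h.1.1

theorem aa9_xc {p1 p2 : ℝ} (h1 : 0 < p1) : ContinuousOn (fun p : ℝ × ℝ => Xc p.1 p.2) (Rec p1 p2) :=
  Xc_cont.mono fun p hp => aa9_pos (P := p.1) (N := p.2) h1 hp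

theorem num_bd {k : ℝ} (hk : k ∈ Ioo (0 : ℝ) 1) {p1 p2 : ℝ} (h1 : 0 < p1) : ∃ M θ, 0 < M ∧ 0 < θ ∧ ∀ P N X : ℝ, (P, N) ∈ Rec p1 p2 →
    0 ≤ X → X ≤ (1 - k) * Xc P N + θ → 0 ≤ num P N X ∧ num P N X ≤ M := by
  obtain ⟨c, hc, hcX⟩ := Xc_min (p2 := p2) h1
  have hk0 := hk.1
  have hc2 : IsCompact (Rec p1 p2 ×ˢ Icc (0 : ℝ) (1 - k / 2)) := (Rec_comp p1 p2).prod isCompact_Icc
  have hf : ContinuousOn (fun q : (ℝ × ℝ) × ℝ => num q.1.1 q.1.2 (q.2 * Xc q.1.1 q.1.2)) (Rec p1 p2 ×ˢ Icc (0 : ℝ) (1 - k / 2)) := by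
    have hm : ContinuousOn (fun q : (ℝ × ℝ) × ℝ => ((q.1.1, q.1.2, q.2 * Xc q.1.1 q.1.2) : ℝ × ℝ × ℝ))
        (Rec p1 p2 ×ˢ Icc (0 : ℝ) (1 - k / 2)) := by
      have h2 : ContinuousOn (fun q : (ℝ × ℝ) × ℝ => Xc q.1.1 q.1.2) (Rec p1 p2 ×ˢ Icc (0 : ℝ) (1 - k / 2)) :=
        (aa9_xc h1).comp continuousOn_fst fun q hq => hq.1
      exact (by fun_prop : ContinuousOn (fun q : (ℝ × ℝ) × ℝ => q.1.1) _).prodMk
        ((by fun_prop : ContinuousOn (fun q : (ℝ × ℝ) × ℝ => q.1.2) _).prodMk (continuousOn_snd.mul h2))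
    refine num_cont.comp hm fun q hq => ?_
    have hP : 0 < q.1.1 := aa9_pos (N := q.1.2) h1 hq.1
    refine ⟨hP, ?_⟩
    change q.2 * Xc q.1.1 q.1.2 < Xc q.1.1 q.1.2
    have h3 := Xc_pos q.1.2 hP
    have h4 := hq.2.2
    nlinarith
  obtain ⟨M, hM⟩ := hc2.exists_bound_of_continuousOn hf
  refine ⟨|M| + 1, k / 2 * c, by positivity, by positivity, fun P N X hPN hX hX2 => ?_⟩
  have hP := aa9_pos h1 hPN
  have hXc := Xc_pos N hP
  have h5 : X ≤ (1 - k / 2) * Xc P N := by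
    have h6 : k / 2 * c ≤ k / 2 * Xc P N := mul_le_mul_of_nonneg_left (hcX P N hPN) (by linarith)
    nlinarith
  have h7 : X < Xc P N := by nlinarith
  refine ⟨(num_pos hP h7).le, ?_⟩
  have h8 := hM ((P, N), X / Xc P N) ⟨hPN, div_nonneg hX hXc.le, by rw [div_le_iff₀ hXc]; exact h5⟩
  simp only [div_mul_cancel₀ _ hXc.ne'] at h8
  rw [Real.norm_eq_abs] at h8
  have h9 := le_abs_self (num P N X)
  have h10 := le_abs_self M
  linarith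

theorem beta_le {P N X : ℝ} (hP : 0 < P) (h0 : 0 ≤ X) (hX : X < Xc P N) : betam P N X ≤ P := betam_le hP h0 hX

theorem betam_min {k P N X : ℝ} (hk : k ∈ Ioo (0 : ℝ) 1) (hP : 0 < P) (hX : 0 ≤ X) :
    betam P N ((1 - k) * Xc P N) ≤ betam P N (min X ((1 - k) * Xc P N)) ∧ betam P N (min X ((1 - k) * Xc P N)) ≤ P := by
  have hXc := Xc_pos N hP
  have hk0 := hk.1
  have hk1 := hk.2
  have h1 : (1 - k) * Xc P N < Xc P N := by nlinarith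
  have h2 : 0 ≤ (1 - k) * Xc P N := mul_nonneg (by linarith) hXc.le
  have h3 : min X ((1 - k) * Xc P N) < Xc P N := (min_le_right _ _).trans_lt h1
  exact ⟨betam_anti hP h3 h1 (min_le_right _ _), betam_le hP (le_min hX h2) h3⟩

theorem betam_blow {p1 p2 : ℝ} (h1 : 0 < p1) (G0 : ℝ) :
    ∃ k0 ∈ Ioo (0 : ℝ) (1 / 2), ∀ k ∈ Ioc 0 k0, ∀ P N : ℝ, (P, N) ∈ Rec p1 p2 → G0 ≤ - betam P N ((1 - k) * Xc P N) := by
  obtain ⟨k₀, h2, h3, h4⟩ := blow_up' (Rec_comp p1 p2) (fun p hp => aa9_pos (P := p.1) (N := p.2) h1 hp) G0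
  refine ⟨k₀ / 2, ⟨by linarith, by linarith⟩, fun k hk P N hPN => ?_⟩
  exact h4 k hk.1 (hk.2.trans (by linarith)) (P, N) hPN

theorem betam_X1_bd {k : ℝ} (hk : k ∈ Ioo (0 : ℝ) 1) {p1 p2 : ℝ} (h1 : 0 < p1) :
    ∃ G, ∀ P N : ℝ, (P, N) ∈ Rec p1 p2 → - betam P N ((1 - k) * Xc P N) ≤ G := by
  have hk0 := hk.1
  have hf : ContinuousOn (fun q : ℝ × ℝ => betam q.1 q.2 ((1 - k) * Xc q.1 q.2)) (Rec p1 p2) := by
    have hm : ContinuousOn (fun q : ℝ × ℝ => ((q.1, q.2, (1 - k) * Xc q.1 q.2) : ℝ × ℝ × ℝ)) (Rec p1 p2) :=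
      continuousOn_fst.prodMk (continuousOn_snd.prodMk (continuousOn_const.mul (aa9_xc h1)))
    refine betam_cont.comp hm fun q hq => ?_
    have hP : 0 < q.1 := aa9_pos (N := q.2) h1 hq
    refine ⟨hP, ?_⟩
    change (1 - k) * Xc q.1 q.2 < Xc q.1 q.2
    have h3 := Xc_pos q.2 hP
    nlinarith
  obtain ⟨M, hM⟩ := (Rec_comp p1 p2).exists_bound_of_continuousOn hf
  refine ⟨M, fun P N hPN => ?_⟩
  have h2 := hM (P, N) hPN
  rw [Real.norm_eq_abs] at h2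
  exact (neg_le_abs _).trans h2

theorem Xc_bd {p1 p2 : ℝ} (h1 : 0 < p1) : ∃ c C : ℝ, 0 < c ∧ ∀ P N : ℝ, (P, N) ∈ Rec p1 p2 → c ≤ Xc P N ∧ Xc P N ≤ C := by
  obtain ⟨c, hc, hcX⟩ := Xc_min (p2 := p2) h1
  obtain ⟨M, hM⟩ := (Rec_comp p1 p2).exists_bound_of_continuousOn (aa9_xc h1)
  refine ⟨c, M, hc, fun P N hPN => ⟨hcX P N hPN, ?_⟩⟩
  have h2 := hM (P, N) hPN
  rw [Real.norm_eq_abs] at h2
  exact (le_abs_self _).trans h2

end H17S
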